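import Mathlib

/-!
# Tate-Shafarevich groups over an extension of the field of definition, on cocycles

`W` is a Weierstrass curve over `R`, `K` is an extension field of `R` and `Ω` is a separable
closure of `K`.  `H^1(K, W)` is the group of continuous (locally constant) 1-cocycles
`Gal(Ω/K) → W(Ω)` modulo coboundaries, and `Sha(W/K)` consists of the classes of the cocycles
(`InSha`) that become coboundaries over every completion `K_v` of `K` at a nontrivial real
absolute value `v`.
-/

namespace Pool.Agent.ShaAsc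

open WeierstrassCurve WeierstrassCurve.Affine

universe u

variable {R : Type u} [Field R]

/-- The group `W(L)` of points of `W` over a field extension `L` of `R`. -/
abbrev Pts (W : WeierstrassCurve R) (L : Type u) [Field L] [Algebra R L] : Type u :=
  (W.toAffine.baseChange L).Point

variable {K Ω : Type u} [Field K] [Field Ω] [Algebra R K] [Algebra K Ω] [Algebra R Ω]
  [IsScalarTower R K Ω] [DecidableEq Ω]

/-- The Galois action on points: `σ` acts on the coordinates of a point of `W(Ω)`. -/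
noncomputable def act (W : WeierstrassCurve R) (σ : Ω ≃ₐ[K] Ω) : Pts W Ω →+ Pts W Ω :=
  Point.map (W' := W.toAffine) σ.toAlgHom

/-- Continuous (= locally constant for the Krull topology) 1-cocycles `Gal(Ω/K) → W(Ω)`. -/
def IsCocycle (W : WeierstrassCurve R) (c : (Ω ≃ₐ[K] Ω) → Pts W Ω) : Prop :=
  IsLocallyConstant c ∧ ∀ σ τ, c (σ * τ) = c σ + act W σ (c τ)

/-- 1-coboundaries `σ ↦ σ P - P`, `P ∈ W(Ω)`. -/
def IsCoboundary (W : WeierstrassCurve R) (c : (Ω ≃ₐ[K] Ω) → Pts W Ω) : Prop :=
  ∃ P : Pts W Ω, ∀ σ, c σ = act W σ P - P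

/-- The restriction of `c` to `Gal(Λ/L)` along `ι : Ω → Λ` is a coboundary in `W(Λ)`: there is
`P ∈ W(Λ)` with `ι (c σ) = τ P - P` whenever `τ ∈ Gal(Λ/L)` restricts to `σ ∈ Gal(Ω/K)`. -/
def SplitsVia (W : WeierstrassCurve R) (L Λ : Type u) [Field L] [Field Λ] [Algebra R L]
    [Algebra L Λ] [Algebra R Λ] [IsScalarTower R L Λ] [DecidableEq Λ] (ι : Ω →ₐ[R] Λ)
    (c : (Ω ≃ₐ[K] Ω) → Pts W Ω) : Prop :=
  ∃ P : Pts W Λ, ∀ (τ : Λ ≃ₐ[L] Λ) (σ : Ω ≃ₐ[K] Ω), (∀ x, ι (σ x) = τ (ι x)) →
    Point.map (W' := W.toAffine) ι (c σ) = act W τ P - P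

/-- The class of `c` restricts to zero in `H^1(L, W) = H^1(Gal(L^sep/L), W(L^sep))`, for an
extension field `L` of `K`; `ι` is an embedding `Ω → L^sep` extending `K → L`. -/
def SplitsOver (W : WeierstrassCurve R) (L : Type u) [Field L] [Algebra K L] [Algebra R L]
    (c : (Ω ≃ₐ[K] Ω) → Pts W Ω) : Prop :=
  letI := Classical.decEq (SeparableClosure L)
  ∃ ι : Ω →ₐ[R] SeparableClosure L,
    (∀ x : K, ι (algebraMap K Ω x) = algebraMap L (SeparableClosure L) (algebraMap K L x)) ∧
      SplitsVia W L (SeparableClosure L) ι c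

/-- `c` is a continuous cocycle whose class lies in the Tate-Shafarevich group, the kernel of
`H^1(K, W) → ∏_v H^1(K_v, W)`, `v` running over all nontrivial real absolute values of `K`. -/
def InSha (W : WeierstrassCurve R) (c : (Ω ≃ₐ[K] Ω) → Pts W Ω) : Prop :=
  IsCocycle W c ∧ ∀ v : AbsoluteValue K ℝ, v.IsNontrivial → SplitsOver W v.Completion c

/-- `y^2 = x (x^2 + a x + b)` has good reduction at the (odd, nonarchimedean) place `w`: after
scaling `x` by a square the coefficients are integral and the discriminant is a unit. -/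
def GoodAt (w : AbsoluteValue K ℝ) (a b : K) : Prop :=
  ∃ c : K, w (c ^ 2 * a) ≤ 1 ∧ w (c ^ 4 * b) = 1 ∧ w (c ^ 4 * (a ^ 2 - 4 * b)) = 1

end Pool.Agent.ShaAsc
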