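import Mathlib
import Pool.Agent.Work.MP_60d5ce_nt.Asc.Defs

-- merged part: Pool.Agent.Work.MP_60d5ce_nt.Asc.Group
section
/-!
# Corestriction of 1-cocycles, for a group acting on a finite transitive set
-/

namespace Pool.Agent.ShaAsc

section abstract

variable {G : Type*} [Group G] {A : Type*} [AddCommGroup A] {X : Type*} [MulAction G X]

/-- The Shapiro cocycle attached to a function on the stabiliser of a base point. -/
def Sh (ρ : G → A →+ A) (s : X → G) (f : G → A) (σ : G) (x : X) : A :=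
  ρ (s x) (f ((s x)⁻¹ * σ * s (σ⁻¹ • x)))

/-- Corestriction. -/
def cor [Fintype X] (ρ : G → A →+ A) (s : X → G) (f : G → A) (σ : G) : A := ∑ x, Sh ρ s f σ x

variable {ρ : G → A →+ A} {s : X → G} {x0 : X}

theorem sh_stab (hs : ∀ x, s x • x0 = x) (σ : G) (x : X) :
    ((s x)⁻¹ * σ * s (σ⁻¹ • x)) • x0 = x0 := by
  rw [mul_smul, mul_smul, hs, smul_inv_smul, inv_smul_eq_iff, hs]

theorem sh_mul (hρ : ∀ σ τ a, ρ (σ * τ) a = ρ σ (ρ τ a)) (hs : ∀ x, s x • x0 = x) {f : G → A}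
    (hf : ∀ σ τ, σ • x0 = x0 → τ • x0 = x0 → f (σ * τ) = f σ + ρ σ (f τ)) (σ τ : G) (x : X) :
    Sh ρ s f (σ * τ) x = Sh ρ s f σ x + ρ σ (Sh ρ s f τ (σ⁻¹ • x)) := by
  unfold Sh
  have e : (s x)⁻¹ * (σ * τ) * s ((σ * τ)⁻¹ • x) = ((s x)⁻¹ * σ * s (σ⁻¹ • x)) *
      ((s (σ⁻¹ • x))⁻¹ * τ * s (τ⁻¹ • σ⁻¹ • x)) := by
    rw [mul_inv_rev, mul_smul]; group
  rw [e, hf _ _ (sh_stab hs σ x) (sh_stab hs τ _), map_add, ← hρ, ← hρ]
  congr 3
  group

variable [Fintype X]

theorem sum_smul_inv (σ : G) (φ : X → A) : ∑ x, φ (σ⁻¹ • x) = ∑ x, φ x :=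
  Equiv.sum_comp (MulAction.toPerm σ⁻¹) φ

theorem cor_mul (hρ : ∀ σ τ a, ρ (σ * τ) a = ρ σ (ρ τ a)) (hs : ∀ x, s x • x0 = x) {f : G → A}
    (hf : ∀ σ τ, σ • x0 = x0 → τ • x0 = x0 → f (σ * τ) = f σ + ρ σ (f τ)) (σ τ : G) :
    cor ρ s f (σ * τ) = cor ρ s f σ + ρ σ (cor ρ s f τ) := by
  unfold cor
  simp only [sh_mul hρ hs hf, Finset.sum_add_distrib, map_sum]
  rw [sum_smul_inv σ fun x => ρ σ (Sh ρ s f τ x)]

theorem cor_congr (hs : ∀ x, s x • x0 = x) {f g : G → A} (h : ∀ σ, σ • x0 = x0 → f σ = g σ) :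
    cor ρ s f = cor ρ s g := by
  funext σ
  exact Finset.sum_congr rfl fun x _ => congrArg _ (h _ (sh_stab hs σ x))

theorem cor_add (f g : G → A) : cor ρ s (f + g) = cor ρ s f + cor ρ s g := by
  funext σ
  simp [cor, Sh, Finset.sum_add_distrib]

theorem cor_sub (f g : G → A) : cor ρ s (f - g) = cor ρ s f - cor ρ s g := by
  funext σ
  simp [cor, Sh, Finset.sum_sub_distrib]

theorem cor_nsmul (n : ℕ) (f : G → A) : cor ρ s (n • f) = n • cor ρ s f := by
  funext σ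
  simp [cor, Sh, Finset.smul_sum]

theorem cor_cob (hρ : ∀ σ τ a, ρ (σ * τ) a = ρ σ (ρ τ a)) (hs : ∀ x, s x • x0 = x) {f : G → A}
    {P : A} (hf : ∀ σ, σ • x0 = x0 → f σ = ρ σ P - P) (σ : G) :
    cor ρ s f σ = ρ σ (∑ x, ρ (s x) P) - ∑ x, ρ (s x) P := by
  unfold cor Sh
  rw [map_sum, ← sum_smul_inv σ fun x => ρ σ (ρ (s x) P), ← Finset.sum_sub_distrib]
  refine Finset.sum_congr rfl fun x _ => ?_
  rw [hf _ (sh_stab hs σ x), map_sub, ← hρ, ← hρ]
  congr 3
  group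

theorem cor_res {c : G → A}
    (hc : ∀ σ τ, c (σ * τ) = c σ + ρ σ (c τ)) (σ : G) :
    cor ρ s c σ = Fintype.card X • c σ + (ρ σ (∑ x, c (s x)) - ∑ x, c (s x)) := by
  unfold cor Sh
  rw [map_sum, ← sum_smul_inv σ fun x => ρ σ (c (s x)), ← Finset.sum_sub_distrib,
    ← Finset.card_univ, ← Finset.sum_const, ← Finset.sum_add_distrib]
  refine Finset.sum_congr rfl fun x _ => ?_
  have e1 := hc (s x) ((s x)⁻¹ * σ * s (σ⁻¹ • x))
  rw [show s x * ((s x)⁻¹ * σ * s (σ⁻¹ • x)) = σ * s (σ⁻¹ • x) by group, hc] at e1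
  rw [← sub_eq_zero, ← sub_eq_zero.2 e1.symm]
  abel

/-- transfer of a character -/
theorem prod_char {M : Type*} [CommGroup M] (ψ : G →* M) (s : X → G) (σ : G) :
    ∏ x, ψ ((s x)⁻¹ * σ * s (σ⁻¹ • x)) = ψ σ ^ Fintype.card X := by
  simp only [map_mul, map_inv, Finset.prod_mul_distrib, Finset.prod_inv_distrib,
    Finset.prod_const, Finset.card_univ]
  rw [show ∏ x, ψ (s (σ⁻¹ • x)) = ∏ x, ψ (s x) from
    Equiv.prod_comp (MulAction.toPerm σ⁻¹) fun x => ψ (s x), mul_right_comm, inv_mul_cancel, one_mul]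

omit [Fintype X] in
/-- Shapiro's lemma, orbit by orbit. -/
theorem shapiro (hρ : ∀ σ τ a, ρ (σ * τ) a = ρ σ (ρ τ a)) (F : G → X → A)
    (hF : ∀ σ τ x, F (σ * τ) x = F σ x + ρ σ (F τ (σ⁻¹ • x)))
    (hP : ∀ x, ∃ P, ∀ τ : G, τ • x = x → F τ x = ρ τ P - P) :
    ∃ Φ : X → A, ∀ τ x, F τ x = ρ τ (Φ (τ⁻¹ • x)) - Φ x := by
  choose P hP using hP
  let r : X → X := fun x => (Quotient.mk (MulAction.orbitRel G X) x).out
  have hr : ∀ x, ∃ t : G, t • r x = x := fun x => by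
    have : (MulAction.orbitRel G X) x (r x) := Quotient.exact (Quotient.out_eq _).symm
    exact this
  have hr' : ∀ (τ : G) x, r (τ • x) = r x := fun τ x => by
    have : Quotient.mk (MulAction.orbitRel G X) (τ • x) = Quotient.mk (MulAction.orbitRel G X) x :=
      Quotient.sound ⟨τ, rfl⟩
    simp only [r, this]
  choose t ht using hr
  refine ⟨fun x => ρ (t x) (P (r x)) - F (t x) x, fun τ x => ?_⟩
  have hu : ((t x)⁻¹ * τ * t (τ⁻¹ • x)) • r x = r x := by
    rw [mul_smul, mul_smul, ← hr' τ⁻¹ x, ht, smul_inv_smul, inv_smul_eq_iff, hr', ht]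
  have e1 := hF τ (t (τ⁻¹ • x)) x
  have e2 := hF (t x) ((t x)⁻¹ * τ * t (τ⁻¹ • x)) x
  rw [show t x * ((t x)⁻¹ * τ * t (τ⁻¹ • x)) = τ * t (τ⁻¹ • x) by group, e1,
    show (t x)⁻¹ • x = r x by rw [inv_smul_eq_iff, ht], hP _ _ hu, map_sub, ← hρ,
    show t x * ((t x)⁻¹ * τ * t (τ⁻¹ • x)) = τ * t (τ⁻¹ • x) by group, hρ] at e2
  simp only [map_sub, hr']
  rw [← sub_eq_zero, ← sub_eq_zero.2 e2]
  abel

end abstract

end Pool.Agent.ShaAsc
end

-- merged part: Pool.Agent.Work.MP_60d5ce_nt.Defs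
section
/-!
# The Tate-Shafarevich group of a Weierstrass curve over a field, on cocycles

`Ω` is a separable closure of `K`.  `H^1(K, W)` is the group of continuous (locally constant)
1-cocycles `Gal(Ω/K) → W(Ω)` modulo coboundaries, and `Sha(W/K)` consists of the classes of the
cocycles (`InSha`) that become coboundaries over every completion `K_v` of `K` at a nontrivial
real absolute value `v`.
-/

namespace Pool.Agent.ShaFF

open WeierstrassCurve WeierstrassCurve.Affine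

universe u

variable {K : Type u} [Field K]

/-- The group `W(L)` of points of `W` over a field extension `L` of `K`. -/
abbrev Pts (W : WeierstrassCurve K) (L : Type u) [Field L] [Algebra K L] : Type u :=
  (W.toAffine.baseChange L).Point

variable {Ω : Type u} [Field Ω] [Algebra K Ω] [DecidableEq Ω]

/-- The Galois action on points: `σ` acts on the coordinates of a point of `W(Ω)`. -/
noncomputable def act (W : WeierstrassCurve K) (σ : Ω ≃ₐ[K] Ω) : Pts W Ω →+ Pts W Ω :=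
  Point.map (W' := W.toAffine) σ.toAlgHom

/-- Continuous (= locally constant for the Krull topology) 1-cocycles `Gal(Ω/K) → W(Ω)`. -/
def IsCocycle (W : WeierstrassCurve K) (c : (Ω ≃ₐ[K] Ω) → Pts W Ω) : Prop :=
  IsLocallyConstant c ∧ ∀ σ τ, c (σ * τ) = c σ + act W σ (c τ)

/-- 1-coboundaries `σ ↦ σ P - P`, `P ∈ W(Ω)`. -/
def IsCoboundary (W : WeierstrassCurve K) (c : (Ω ≃ₐ[K] Ω) → Pts W Ω) : Prop :=
  ∃ P : Pts W Ω, ∀ σ, c σ = act W σ P - P

/-- The restriction of `c` to `Gal(Λ/L)` along `ι : Ω → Λ` is a coboundary in `W(Λ)`: there is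
`P ∈ W(Λ)` with `ι (c σ) = τ P - P` whenever `τ ∈ Gal(Λ/L)` restricts to `σ ∈ Gal(Ω/K)`. -/
def SplitsVia (W : WeierstrassCurve K) (L Λ : Type u) [Field L] [Field Λ] [Algebra K L]
    [Algebra L Λ] [Algebra K Λ] [IsScalarTower K L Λ] [DecidableEq Λ] (ι : Ω →ₐ[K] Λ)
    (c : (Ω ≃ₐ[K] Ω) → Pts W Ω) : Prop :=
  ∃ P : Pts W Λ, ∀ (τ : Λ ≃ₐ[L] Λ) (σ : Ω ≃ₐ[K] Ω), (∀ x, ι (σ x) = τ (ι x)) →
    Point.map (W' := W.toAffine) ι (c σ) = Point.map (W' := W.toAffine) τ.toAlgHom P - P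

/-- The class of `c` restricts to zero in `H^1(L, W) = H^1(Gal(L^sep/L), W(L^sep))`. -/
def SplitsOver (W : WeierstrassCurve K) (L : Type u) [Field L] [Algebra K L]
    (c : (Ω ≃ₐ[K] Ω) → Pts W Ω) : Prop :=
  letI := Classical.decEq (SeparableClosure L)
  ∃ ι : Ω →ₐ[K] SeparableClosure L, SplitsVia W L (SeparableClosure L) ι c

/-- `c` is a continuous cocycle whose class lies in the Tate-Shafarevich group, the kernel of
`H^1(K, W) → ∏_v H^1(K_v, W)`, `v` running over all nontrivial real absolute values of `K`. -/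
def InSha (W : WeierstrassCurve K) (c : (Ω ≃ₐ[K] Ω) → Pts W Ω) : Prop :=
  IsCocycle W c ∧ ∀ v : AbsoluteValue K ℝ, v.IsNontrivial → SplitsOver W v.Completion c

end Pool.Agent.ShaFF
end

-- merged part: Pool.Agent.Work.MP_60d5ce_nt.Curve
section
/-!
# Explicit 2-descent formulas on `y^2 = (x - e1)(x - e2)(x - e3)`
-/

namespace Pool.Agent.ShaFF

open WeierstrassCurve WeierstrassCurve.Affine

universe u

variable {L : Type u} [Field L]

/-- `V` is the curve `y^2 = (x - e1)(x - e2)(x - e3)` with distinct roots, `2 ≠ 0`. -/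
structure Spl (V : Affine L) (e1 e2 e3 : L) : Prop where
  a1 : V.a₁ = 0
  a3 : V.a₃ = 0
  a2 : V.a₂ = -(e1 + e2 + e3)
  a4 : V.a₄ = e1 * e2 + e1 * e3 + e2 * e3
  a6 : V.a₆ = -(e1 * e2 * e3)
  n12 : e1 ≠ e2
  n13 : e1 ≠ e3
  n23 : e2 ≠ e3
  two : (2 : L) ≠ 0

variable {V : Affine L} {e1 e2 e3 : L}

theorem Spl.swap12 (h : Spl V e1 e2 e3) : Spl V e2 e1 e3 :=
  ⟨h.a1, h.a3, by rw [h.a2]; ring, by rw [h.a4]; ring, by rw [h.a6]; ring,
    h.n12.symm, h.n23, h.n13, h.two⟩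

theorem Spl.swap23 (h : Spl V e1 e2 e3) : Spl V e1 e3 e2 :=
  ⟨h.a1, h.a3, by rw [h.a2]; ring, by rw [h.a4]; ring, by rw [h.a6]; ring,
    h.n13, h.n12, h.n23.symm, h.two⟩

theorem Spl.swap13 (h : Spl V e1 e2 e3) : Spl V e3 e2 e1 :=
  ⟨h.a1, h.a3, by rw [h.a2]; ring, by rw [h.a4]; ring, by rw [h.a6]; ring,
    h.n23.symm, h.n13.symm, h.n12.symm, h.two⟩

theorem Spl.equation_iff (h : Spl V e1 e2 e3) (x y : L) :
    V.Equation x y ↔ y ^ 2 = (x - e1) * (x - e2) * (x - e3) := by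
  rw [Affine.equation_iff, h.a1, h.a3, h.a2, h.a4, h.a6]
  constructor <;> intro H <;> linear_combination H

theorem Spl.eq_of_ns (h : Spl V e1 e2 e3) {x y : L} (hn : V.Nonsingular x y) :
    y ^ 2 = (x - e1) * (x - e2) * (x - e3) := (h.equation_iff x y).1 hn.1

theorem Spl.ns_of_eq (h : Spl V e1 e2 e3) {x y : L} (hy : y ≠ 0)
    (he : y ^ 2 = (x - e1) * (x - e2) * (x - e3)) : V.Nonsingular x y := by
  rw [nonsingular_iff']
  refine ⟨(h.equation_iff x y).2 he, Or.inr ?_⟩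
  rw [h.a1, h.a3]
  simpa using ⟨h.two, hy⟩

theorem Spl.negY (h : Spl V e1 e2 e3) (x y : L) : V.negY x y = -y := by
  simp [Affine.negY, h.a1, h.a3]

theorem Spl.ne_negY (h : Spl V e1 e2 e3) {x y : L} (hy : y ≠ 0) : y ≠ V.negY x y := by
  rw [h.negY]
  intro H
  apply hy
  have : 2 * y = 0 := by linear_combination H
  exact (mul_eq_zero.1 this).resolve_left h.two

/-- the `x`-coordinate (junk value `0` at infinity) -/
noncomputable def xx : V.Point → L
  | .zero => 0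
  | .some x _ _ => x

/-- the function `r_e` with `r_e(Q)^2 = x(2Q) - e` -/
noncomputable def rr (V : Affine L) (e : L) : V.Point → L
  | .zero => 0
  | .some x y _ => ((x - e) ^ 2 - (3 * e ^ 2 + 2 * V.a₂ * e + V.a₄)) / (2 * y)

open Classical in
/-- the character of `E[2]` attached to the root `e` -/
noncomputable def chi (e : L) (T : V.Point) : L :=
  if T = 0 ∨ xx T = e then 1 else -1

theorem chi_zero (e : L) : chi e (0 : V.Point) = 1 := by simp [chi]

theorem chi_sq (e : L) (T : V.Point) : chi e T * chi e T = 1 := by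
  unfold chi; split_ifs <;> simp

theorem chi_ne_zero (e : L) (T : V.Point) : chi e T ≠ 0 := by
  unfold chi; split_ifs <;> simp

theorem chi_cases (e : L) (T : V.Point) : chi e T = 1 ∨ chi e T = -1 := by
  unfold chi; split_ifs <;> simp

variable [DecidableEq L]

theorem Spl.two_ne_zero_iff (h : Spl V e1 e2 e3) {x y : L} (hn : V.Nonsingular x y) :
    (Point.some x y hn + Point.some x y hn = 0) ↔ y = 0 := by
  constructor
  · intro H
    by_contra hy
    rw [Point.add_self_of_Y_ne (h.ne_negY hy)] at H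
    exact Point.some_ne_zero _ H
  · intro hy
    apply Point.add_self_of_Y_eq
    rw [h.negY, hy, neg_zero]

/-- classification of the 2-torsion -/
theorem Spl.two_torsion (h : Spl V e1 e2 e3) {T : V.Point} (hT : T + T = 0) :
    T = 0 ∨ ∃ x, ∃ hn : V.Nonsingular x 0, T = Point.some x 0 hn ∧ (x = e1 ∨ x = e2 ∨ x = e3) := by
  rcases T with _ | ⟨x, y, hn⟩
  · left; rfl
  · right
    have hy := (h.two_ne_zero_iff hn).1 hT
    subst hy
    refine ⟨x, hn, rfl, ?_⟩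
    have := h.eq_of_ns hn
    have h0 : (x - e1) * (x - e2) * (x - e3) = 0 := by rw [← this]; ring
    rcases mul_eq_zero.1 h0 with h1 | h1
    · rcases mul_eq_zero.1 h1 with h1 | h1
      · left; exact sub_eq_zero.1 h1
      · right; left; exact sub_eq_zero.1 h1
    · right; right; exact sub_eq_zero.1 h1

theorem Spl.chi_prod (h : Spl V e1 e2 e3) {T : V.Point} (hT : T + T = 0) :
    chi e1 T * chi e2 T * chi e3 T = 1 := by
  rcases h.two_torsion hT with rfl | ⟨x, hn, rfl, hx⟩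
  · simp [chi_zero]
  · have h0 := Point.some_ne_zero hn
    have n12 := h.n12
    have n13 := h.n13
    have n23 := h.n23
    rcases hx with rfl | rfl | rfl
    · simp [chi, xx, h0, n12, n13]
    · simp [chi, xx, h0, n12.symm, n23]
    · simp [chi, xx, h0, n13.symm, n23.symm]

omit [DecidableEq L] in
theorem Spl.eq_zero_of_chi (h : Spl V e1 e2 e3) {T : V.Point}
    (h1 : chi e1 T = 1) (h2 : chi e2 T = 1) : T = 0 := by
  by_contra h0
  have hm : (-1 : L) ≠ 1 := by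
    intro H
    apply h.two
    linear_combination -H
  have k1 : xx T = e1 := by
    by_contra hc
    simp [chi, h0, hc, hm] at h1
  have k2 : xx T = e2 := by
    by_contra hc
    simp [chi, h0, hc, hm] at h2
  exact h.n12 (k1.symm.trans k2)

/-- `x(2Q) - e1 = r_1(Q)^2` -/
theorem Spl.xx_two (h : Spl V e1 e2 e3) {Q : V.Point} (hQ : Q + Q ≠ 0) :
    xx (Q + Q) - e1 = rr V e1 Q ^ 2 := by
  rcases Q with _ | ⟨x, y, hn⟩
  · exact absurd (add_zero (0 : V.Point)) hQ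
  · have hy : y ≠ 0 := fun hy => hQ ((h.two_ne_zero_iff hn).2 hy)
    rw [Point.add_self_of_Y_ne (h.ne_negY hy)]
    simp only [xx, rr]
    rw [slope_of_Y_ne rfl (h.ne_negY hy), h.negY]
    have he := h.eq_of_ns hn
    have h2 := h.two
    simp only [addX, h.a1, h.a2, h.a4]
    have : y - -y = 2 * y := by ring
    rw [this]
    field_simp
    linear_combination (-4 * (2 * x - e2 - e3)) * he

/-- translation by a 2-torsion point, in coordinates -/
theorem Spl.add_T (h : Spl V e1 e2 e3) {x y : L} (hn : V.Nonsingular x y) (hy : y ≠ 0)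
    (hT : V.Nonsingular e1 0) :
    ∃ hn' : V.Nonsingular (e1 + (e1 - e2) * (e1 - e3) / (x - e1))
      (-(y * ((e1 - e2) * (e1 - e3)) / (x - e1) ^ 2)),
      Point.some x y hn + Point.some e1 0 hT = Point.some _ _ hn' := by
  have he := h.eq_of_ns hn
  have hx : x ≠ e1 := by
    intro H
    apply hy
    rw [H] at he
    simpa using he
  have hx' : x - e1 ≠ 0 := sub_ne_zero.2 hx
  have k1 : V.addX x e1 (V.slope x e1 y 0) = e1 + (e1 - e2) * (e1 - e3) / (x - e1) := by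
    rw [slope_of_X_ne hx]
    simp only [addX, h.a1, h.a2]
    field_simp
    linear_combination he
  have k2 : V.addY x e1 y (V.slope x e1 y 0) = -(y * ((e1 - e2) * (e1 - e3)) / (x - e1) ^ 2) := by
    rw [addY, h.negY, negAddY, k1, slope_of_X_ne hx]
    field_simp
    ring
  have hn' := nonsingular_add hn hT (fun hxy => hx hxy.left)
  refine ⟨by rw [← k1, ← k2]; exact hn', ?_⟩
  rw [Point.add_of_X_ne hx]
  simp only [Point.some.injEq]
  exact ⟨k1, k2⟩

theorem Spl.rr_add_same (h : Spl V e1 e2 e3) {x y : L} (hn : V.Nonsingular x y) (hy : y ≠ 0)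
    (hT : V.Nonsingular e1 0) :
    rr V e1 (Point.some x y hn + Point.some e1 0 hT) = rr V e1 (Point.some x y hn) := by
  obtain ⟨hn', H⟩ := h.add_T hn hy hT
  have he := h.eq_of_ns hn
  have hx : x ≠ e1 := by
    intro H
    apply hy
    rw [H] at he
    simpa using he
  have hx' : x - e1 ≠ 0 := sub_ne_zero.2 hx
  have n12 := sub_ne_zero.2 h.n12
  have n13 := sub_ne_zero.2 h.n13
  have h2 := h.two
  rw [H]
  simp only [rr, h.a2, h.a4]
  field_simp
  ring

theorem Spl.rr_add_other (h : Spl V e1 e2 e3) {x y : L} (hn : V.Nonsingular x y) (hy : y ≠ 0)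
    (hT : V.Nonsingular e1 0) :
    rr V e2 (Point.some x y hn + Point.some e1 0 hT) = - rr V e2 (Point.some x y hn) := by
  obtain ⟨hn', H⟩ := h.add_T hn hy hT
  have he := h.eq_of_ns hn
  have hx : x ≠ e1 := by
    intro H
    apply hy
    rw [H] at he
    simpa using he
  have hx' : x - e1 ≠ 0 := sub_ne_zero.2 hx
  have n12 := sub_ne_zero.2 h.n12
  have n13 := sub_ne_zero.2 h.n13
  have h2 := h.two
  rw [H]
  simp only [rr, h.a2, h.a4]
  field_simp
  ring

/-- `r_1(Q + T) = χ_1(T) r_1(Q)` for `T ∈ E[2]`, `Q ∉ E[2]`. -/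
theorem Spl.rr_add (h : Spl V e1 e2 e3) {Q T : V.Point} (hQ : Q + Q ≠ 0) (hT : T + T = 0) :
    rr V e1 (Q + T) = chi e1 T * rr V e1 Q := by
  rcases Q with _ | ⟨x, y, hn⟩
  · exact absurd (add_zero (0 : V.Point)) hQ
  have hy : y ≠ 0 := fun hy => hQ ((h.two_ne_zero_iff hn).2 hy)
  rcases h.two_torsion hT with rfl | ⟨x', hn', rfl, hx⟩
  · simp [chi_zero]
  · have h0 := Point.some_ne_zero hn'
    have n12 := h.n12
    have n13 := h.n13
    rcases hx with rfl | rfl | rfl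
    · rw [h.rr_add_same hn hy]; simp [chi, xx]
    · rw [h.swap12.rr_add_other hn hy]; simp [chi, xx, h0, n12.symm]
    · rw [h.swap13.swap23.rr_add_other hn hy]; simp [chi, xx, h0, n13.symm]

theorem Spl.xx_ne (h : Spl V e1 e2 e3) {P : V.Point} (hP : P + P ≠ 0) : xx P ≠ e1 := by
  rcases P with _ | ⟨x, y, hn⟩
  · exact absurd (add_zero (0 : V.Point)) hP
  have hy : y ≠ 0 := fun hy => hP ((h.two_ne_zero_iff hn).2 hy)
  have he := h.eq_of_ns hn
  intro H
  apply hy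
  simp only [xx] at H
  rw [H] at he
  simpa using he

theorem Spl.rr_ne_zero (h : Spl V e1 e2 e3) {Q : V.Point} (hQ : (Q + Q) + (Q + Q) ≠ 0) :
    rr V e1 Q ≠ 0 := by
  have h2 : Q + Q ≠ 0 := fun H => hQ (by rw [H, add_zero])
  intro H
  have := h.xx_two h2
  rw [H] at this
  exact h.xx_ne hQ (by simpa [sub_eq_zero] using this)

theorem Spl.chi_add (h : Spl V e1 e2 e3) {S : V.Point} (hS : (S + S) + (S + S) ≠ 0)
    {T T' : V.Point} (hT : T + T = 0) (hT' : T' + T' = 0) :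
    chi e1 (T + T') = chi e1 T * chi e1 T' := by
  have h2 : S + S ≠ 0 := fun H => hS (by rw [H, add_zero])
  have h3 : (S + T) + (S + T) ≠ 0 := by
    rw [add_add_add_comm, hT, add_zero]; exact h2
  have k1 := h.rr_add h2 (T := T + T') (by rw [add_add_add_comm, hT, hT', add_zero])
  have k2 := h.rr_add h3 hT'
  rw [h.rr_add h2 hT, add_assoc, k1] at k2
  have := h.rr_ne_zero hS
  apply mul_right_cancel₀ this
  rw [k2]; ring

/-- every point is divisible by 2 over a separably closed field -/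
theorem Spl.exists_half [IsSepClosed L] (h : Spl V e1 e2 e3) (P : V.Point) :
    ∃ Q : V.Point, Q + Q = P := by
  rcases P with _ | ⟨X, Y, hn⟩
  · exact ⟨0, add_zero _⟩
  have : NeZero (2 : L) := ⟨h.two⟩
  obtain ⟨s1, h1⟩ := IsSepClosed.exists_eq_mul_self (X - e1)
  obtain ⟨s2, h2⟩ := IsSepClosed.exists_eq_mul_self (X - e2)
  obtain ⟨s3, h3⟩ := IsSepClosed.exists_eq_mul_self (X - e3)
  have m12 : s1 + s2 ≠ 0 := by
    intro H
    apply h.n12
    linear_combination h2 - h1 + (s2 - s1) * H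
  have m13 : s1 + s3 ≠ 0 := by
    intro H
    apply h.n13
    linear_combination h3 - h1 + (s3 - s1) * H
  have m23 : s2 + s3 ≠ 0 := by
    intro H
    apply h.n23
    linear_combination h3 - h2 + (s3 - s2) * H
  have hy : (s1 + s2) * (s1 + s3) * (s2 + s3) ≠ 0 := mul_ne_zero (mul_ne_zero m12 m13) m23
  have E1 : e1 = X - s1 * s1 := by linear_combination -h1
  have E2 : e2 = X - s2 * s2 := by linear_combination -h2
  have E3 : e3 = X - s3 * s3 := by linear_combination -h3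
  have hq : V.Nonsingular (X + s1 * s2 + s1 * s3 + s2 * s3) ((s1 + s2) * (s1 + s3) * (s2 + s3)) := by
    apply h.ns_of_eq hy
    rw [E1, E2, E3]; ring
  set Q := Point.some _ _ hq with hQ
  have hQ2 : Q + Q ≠ 0 := fun H => hy ((h.two_ne_zero_iff hq).1 H)
  have hr : rr V e1 Q = s1 := by
    simp only [hQ, rr, h.a2, h.a4]
    have := h.two
    field_simp
    rw [E1, E2, E3]; ring
  have hx := h.xx_two hQ2
  rw [hr] at hx
  have hx' : xx (Q + Q) = X := by linear_combination hx - h1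
  generalize hR : Q + Q = R at hx' hQ2
  rcases R with _ | ⟨x', y', hn'⟩
  · exact absurd rfl hQ2
  simp only [xx] at hx'
  rcases (Point.X_eq_iff (h₁ := hn') (h₂ := hn)).1 hx' with H | H
  · exact ⟨Q, hR.trans H⟩
  · refine ⟨-Q, ?_⟩
    rw [← neg_add, hR, H, neg_neg]

end Pool.Agent.ShaFF
end

-- merged part: Pool.Agent.Work.MP_60d5ce_nt.Galois
section
/-!
# Galois-theoretic lemmas for the 2-descent
-/

namespace Pool.Agent.ShaFF

open WeierstrassCurve WeierstrassCurve.Affine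

universe u

variable {K : Type u} [Field K] {Ω : Type u} [Field Ω] [Algebra K Ω]

theorem exists_res [Normal K Ω] {L Λ : Type u} [Field L] [Field Λ] [Algebra K L]
    [Algebra L Λ] [Algebra K Λ] [IsScalarTower K L Λ] (ι : Ω →ₐ[K] Λ) (τ : Λ ≃ₐ[L] Λ) :
    ∃ σ : Ω ≃ₐ[K] Ω, ∀ x, ι (σ x) = τ (ι x) := by
  let _ : Algebra Ω Λ := ι.toRingHom.toAlgebra
  have _ : IsScalarTower K Ω Λ := IsScalarTower.of_algebraMap_eq fun x => (ι.commutes x).symm
  exact ⟨(τ.restrictScalars K).restrictNormal Ω,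
    fun x => AlgEquiv.restrictNormal_commutes (τ.restrictScalars K) Ω x⟩

variable [IsGalois K Ω]

theorem fixed_mem (x : Ω) (h : ∀ σ : Ω ≃ₐ[K] Ω, σ x = x) :
    ∃ b : K, algebraMap K Ω b = x :=
  (InfiniteGalois.mem_range_algebraMap_iff_fixed x).2 h

/-- Kummer theory for quadratic characters. -/
theorem kummer (φ : (Ω ≃ₐ[K] Ω) → Ω) (hc : IsLocallyConstant φ)
    (hv : ∀ σ, φ σ = 1 ∨ φ σ = -1) (hm : ∀ σ τ, φ (σ * τ) = φ σ * φ τ) :
    ∃ r : Ω, r ≠ 0 ∧ ∀ σ : Ω ≃ₐ[K] Ω, σ r = φ σ * r := by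
  have h1 : φ 1 = 1 := by
    have := hm 1 1
    rw [one_mul] at this
    rcases hv 1 with h | h
    · exact h
    · rw [h] at this ⊢; linear_combination this
  have hsq : ∀ σ, φ σ * φ σ = 1 := by
    intro σ; rcases hv σ with h | h <;> rw [h] <;> ring
  have hinv : ∀ σ, φ σ⁻¹ = φ σ := by
    intro σ
    have := hm σ⁻¹ σ
    rw [inv_mul_cancel, h1] at this
    linear_combination (- φ σ) * this - φ σ⁻¹ * hsq σ
  by_cases hall : ∀ σ, φ σ = 1
  · exact ⟨1, one_ne_zero, fun σ => by simp [hall σ]⟩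
  push Not at hall
  obtain ⟨σ0, hσ0⟩ := hall
  have hσ0' : φ σ0 = -1 := (hv σ0).resolve_left hσ0
  let H : Subgroup (Ω ≃ₐ[K] Ω) :=
    { carrier := {σ | φ σ = 1}
      mul_mem' := fun {a b} ha hb => by
        simp only [Set.mem_ofPred_eq] at ha hb ⊢
        rw [hm, ha, hb, one_mul]
      one_mem' := h1
      inv_mem' := fun {a} ha => by
        simp only [Set.mem_ofPred_eq] at ha ⊢
        rw [hinv, ha] }
  have hcl : IsClosed (H : Set (Ω ≃ₐ[K] Ω)) := hc.isClosed_fiber 1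
  have hfix := InfiniteGalois.fixingSubgroup_fixedField (k := K) (K := Ω) ⟨H, hcl⟩
  have hnot : σ0 ∉ (IntermediateField.fixedField H).fixingSubgroup := by
    intro hmem
    have : σ0 ∈ H := by
      have h' : (IntermediateField.fixedField H).fixingSubgroup = H := hfix
      rwa [h'] at hmem
    exact hσ0 this
  rw [IntermediateField.mem_fixingSubgroup_iff] at hnot
  push Not at hnot
  obtain ⟨α, hα, hα0⟩ := hnot
  rw [IntermediateField.mem_fixedField_iff] at hα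
  have hα' : ∀ σ, φ σ = 1 → σ α = α := fun σ hσ => hα σ hσ
  refine ⟨α - σ0 α, sub_ne_zero.2 hα0.symm, fun σ => ?_⟩
  rcases hv σ with h | h
  · have e1 := hα' σ h
    have e2 := hα' (σ0⁻¹ * σ * σ0) (by rw [hm, hm, hinv, h, hσ0']; ring)
    have e3 : σ (σ0 α) = σ0 α := by
      have := congrArg σ0 e2
      simpa [AlgEquiv.mul_apply] using this
    rw [map_sub, e1, e3, h, one_mul]
  · have e1 := hα' (σ0⁻¹ * σ) (by rw [hm, hinv, h, hσ0']; ring)
    have e2 := hα' (σ * σ0) (by rw [hm, h, hσ0']; ring)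
    have e3 : σ α = σ0 α := by
      have := congrArg σ0 e1
      simpa [AlgEquiv.mul_apply] using this
    have e4 : σ (σ0 α) = α := e2
    rw [map_sub, e3, e4, h]; ring

theorem lc_apply (x : Ω) : IsLocallyConstant fun σ : Ω ≃ₐ[K] Ω => σ x := by
  rw [IsLocallyConstant.iff_exists_open]
  intro σ
  have ho := stabilizer_isOpen_of_isIntegral (K := K) x
  refine ⟨(fun τ => σ⁻¹ * τ) ⁻¹' (MulAction.stabilizer (Ω ≃ₐ[K] Ω) x : Set (Ω ≃ₐ[K] Ω)),
    ho.preimage (by fun_prop), by simp, fun τ hτ => ?_⟩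
  have h1 : (σ⁻¹ * τ) x = x := hτ
  have := congrArg σ h1
  simpa [AlgEquiv.mul_apply] using this

variable [DecidableEq Ω]

theorem lc_act (W : WeierstrassCurve K) (Q : Pts W Ω) :
    IsLocallyConstant fun σ : Ω ≃ₐ[K] Ω => act W σ Q := by
  rcases Q with _ | ⟨x, y, hn⟩
  · exact IsLocallyConstant.const _
  · rw [IsLocallyConstant.iff_eventually_eq]
    intro σ
    filter_upwards [(lc_apply x).eventually_eq σ, (lc_apply y).eventually_eq σ] with τ h1 h2
    simp only [act, Point.map_some, Point.some.injEq]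
    exact ⟨h1, h2⟩

omit [IsGalois K Ω] in
theorem act_mul (W : WeierstrassCurve K) (σ τ : Ω ≃ₐ[K] Ω) (Q : Pts W Ω) :
    act W (σ * τ) Q = act W σ (act W τ Q) := by
  rcases Q with _ | ⟨x, y, hn⟩ <;> rfl

theorem cob_mem (W : WeierstrassCurve K) (Q : Pts W Ω) :
    IsCocycle W (fun σ => act W σ Q - Q) := by
  refine ⟨(lc_act W Q).comp (· - Q), fun σ τ => ?_⟩
  simp only [act_mul, map_sub]
  abel

omit [IsGalois K Ω] in
theorem IsCocycle.sub {W : WeierstrassCurve K} {f g : (Ω ≃ₐ[K] Ω) → Pts W Ω}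
    (hf : IsCocycle W f) (hg : IsCocycle W g) : IsCocycle W (f - g) := by
  refine ⟨hf.1.comp₂ hg.1 (· - ·), fun σ τ => ?_⟩
  simp only [Pi.sub_apply, hf.2, hg.2, map_sub]
  abel

omit [IsGalois K Ω] in
theorem InSha.add_self {W : WeierstrassCurve K} {f : (Ω ≃ₐ[K] Ω) → Pts W Ω}
    (hf : InSha W f) : InSha W (f + f) := by
  refine ⟨⟨hf.1.1.comp₂ hf.1.1 (· + ·), fun σ τ => ?_⟩, fun v hv => ?_⟩
  · simp only [Pi.add_apply, hf.1.2, map_add]
    abel
  · let _ := Classical.decEq (SeparableClosure v.Completion)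
    obtain ⟨ι, P, hP⟩ := hf.2 v hv
    refine ⟨ι, P + P, fun τ σ h => ?_⟩
    simp only [Pi.add_apply, map_add, hP τ σ h]
    abel

section maps

variable {S F M : Type u} [Field S] [Field F] [Field M] [Algebra K S] [Algebra K F] [Algebra K M]
  [Algebra S F] [Algebra S M] [IsScalarTower K S F] [IsScalarTower K S M]

theorem algHom_algebraMap (φ : F →ₐ[S] M) (a : K) : φ (algebraMap K F a) = algebraMap K M a := by
  rw [IsScalarTower.algebraMap_apply K S F, AlgHom.commutes, ← IsScalarTower.algebraMap_apply]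

variable [DecidableEq F] [DecidableEq M]

theorem xx_map (W : WeierstrassCurve K) (φ : F →ₐ[S] M) (Q : Pts W F) :
    xx (Point.map (W' := W.toAffine) φ Q) = φ (xx Q) := by
  rcases Q with _ | ⟨x, y, hn⟩
  · exact (map_zero φ).symm
  · rfl

theorem rr_map (W : WeierstrassCurve K) (φ : F →ₐ[S] M) (e : K) (Q : Pts W F) :
    rr (W.toAffine.baseChange M) (algebraMap K M e) (Point.map (W' := W.toAffine) φ Q) =
      φ (rr (W.toAffine.baseChange F) (algebraMap K F e) Q) := by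
  rcases Q with _ | ⟨x, y, hn⟩
  · exact (map_zero φ).symm
  · rw [Point.map_some]
    simp only [rr, map_div₀, map_sub, map_add, map_mul, map_pow, map_ofNat, algHom_algebraMap,
      WeierstrassCurve.baseChange, map_a₂, map_a₄]

theorem chi_map (W : WeierstrassCurve K) (φ : F →ₐ[S] M) (e : K) (T : Pts W F) :
    chi (algebraMap K M e) (Point.map (W' := W.toAffine) φ T) = φ (chi (algebraMap K F e) T) := by
  have h1 : Point.map (W' := W.toAffine) φ T = 0 ↔ T = 0 :=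
    map_eq_zero_iff _ (Point.map_injective φ)
  have h2 : φ (xx T) = algebraMap K M e ↔ xx T = algebraMap K F e := by
    rw [← algHom_algebraMap φ e]; exact φ.injective.eq_iff
  unfold chi
  simp only [xx_map, h1, h2]
  split_ifs <;> simp

end maps

theorem Spl.baseChange {W : WeierstrassCurve K} {e1 e2 e3 : K} (h : Spl W.toAffine e1 e2 e3)
    (L : Type u) [Field L] [Algebra K L] :
    Spl (W.toAffine.baseChange L) (algebraMap K L e1) (algebraMap K L e2) (algebraMap K L e3) := by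
  have hi := (algebraMap K L).injective
  refine ⟨?_, ?_, ?_, ?_, ?_, hi.ne h.n12, hi.ne h.n13, hi.ne h.n23, ?_⟩
  · simp [WeierstrassCurve.baseChange, h.a1]
  · simp [WeierstrassCurve.baseChange, h.a3]
  · simp [WeierstrassCurve.baseChange, h.a2]
  · simp [WeierstrassCurve.baseChange, h.a4]
  · simp [WeierstrassCurve.baseChange, h.a6]
  · have := hi.ne h.two
    simpa [map_ofNat] using this

/-- the 2-torsion is fixed by every automorphism -/
theorem map_two_torsion {W : WeierstrassCurve K} {e1 e2 e3 : K} (h : Spl W.toAffine e1 e2 e3)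
    {S F : Type u} [Field S] [Field F] [Algebra K S] [Algebra K F]
    [Algebra S F] [IsScalarTower K S F] [DecidableEq F] (φ : F →ₐ[S] F) {T : Pts W F} (hT : T + T = 0) :
    Point.map (W' := W.toAffine) φ T = T := by
  rcases (h.baseChange F).two_torsion hT with rfl | ⟨x, hn, rfl, hx⟩
  · rfl
  · rw [Point.map_some]
    simp only [Point.some.injEq, map_zero, and_true]
    rcases hx with rfl | rfl | rfl <;> exact algHom_algebraMap φ _

/-- the point of `W(L)` given by a point with coordinates in `K` -/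
noncomputable def ptK {W : WeierstrassCurve K} {e1 e2 e3 : K} (h : Spl W.toAffine e1 e2 e3)
    {x y : K} (hy : y ≠ 0) (he : y ^ 2 = (x - e1) * (x - e2) * (x - e3))
    (L : Type u) [Field L] [Algebra K L] : Pts W L :=
  Point.some (algebraMap K L x) (algebraMap K L y) ((h.baseChange L).ns_of_eq
    (by simpa using hy) (by simpa using congrArg (algebraMap K L) he))

theorem map_ptK {W : WeierstrassCurve K} {e1 e2 e3 : K} (h : Spl W.toAffine e1 e2 e3)
    {x y : K} (hy : y ≠ 0) (he : y ^ 2 = (x - e1) * (x - e2) * (x - e3))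
    {S F M : Type u} [Field S] [Field F] [Field M] [Algebra K S] [Algebra K F] [Algebra K M]
    [Algebra S F] [Algebra S M] [IsScalarTower K S F] [IsScalarTower K S M]
    [DecidableEq F] [DecidableEq M] (φ : F →ₐ[S] M) :
    Point.map (W' := W.toAffine) φ (ptK h hy he F) = ptK h hy he M := by
  simp only [ptK, Point.map_some, algHom_algebraMap]

end Pool.Agent.ShaFF
end

-- merged part: Pool.Agent.Work.MP_60d5ce_nt.Asc.Basic
section
/-!
# Cocycles: basic lemmas and transport of local splittings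
-/

namespace Pool.Agent.ShaAsc

open WeierstrassCurve WeierstrassCurve.Affine Topology

universe u

variable {R : Type u} [Field R] {W : WeierstrassCurve R}

section maps

variable {K Ω L Λ M : Type u} [Field K] [Field Ω] [Algebra R K] [Algebra K Ω] [Algebra R Ω]
  [IsScalarTower R K Ω] [DecidableEq Ω] [Field L] [Field Λ] [Algebra R L] [Algebra L Λ]
  [Algebra R Λ] [IsScalarTower R L Λ] [DecidableEq Λ] [Field M] [Algebra R M] [DecidableEq M]

theorem map_act (ι : Ω →ₐ[R] Λ) {σ : Ω ≃ₐ[K] Ω} {τ : Λ ≃ₐ[L] Λ} (h : ∀ x, ι (σ x) = τ (ι x))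
    (P : Pts W Ω) : Point.map (W' := W.toAffine) ι (act W σ P) =
      act W τ (Point.map (W' := W.toAffine) ι P) := by
  rcases P with _ | ⟨a, b, hn⟩
  · rfl
  · simp only [act, Point.map_some, Point.some.injEq]
    exact ⟨h a, h b⟩

theorem map_act_eq (ι ι' : Ω →ₐ[R] Λ) {σ : Ω ≃ₐ[K] Ω} (h : ∀ x, ι (σ x) = ι' x)
    (P : Pts W Ω) : Point.map (W' := W.toAffine) ι (act W σ P) =
      Point.map (W' := W.toAffine) ι' P := by
  rcases P with _ | ⟨a, b, hn⟩
  · rfl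
  · simp only [act, Point.map_some, Point.some.injEq]
    exact ⟨h a, h b⟩

theorem map_map_eq (ι : Ω →ₐ[R] Λ) (κ : Λ →ₐ[R] M) (P : Pts W Ω) :
    Point.map (W' := W.toAffine) κ (Point.map (W' := W.toAffine) ι P) =
      Point.map (W' := W.toAffine) (κ.comp ι) P := by
  rcases P with _ | ⟨a, b, hn⟩ <;> rfl

theorem act_mul (σ τ : Ω ≃ₐ[K] Ω) (Q : Pts W Ω) :
    act W (σ * τ) Q = act W σ (act W τ Q) := by
  rcases Q with _ | ⟨x, y, hn⟩ <;> rfl

theorem act_one (Q : Pts W Ω) : act W (1 : Ω ≃ₐ[K] Ω) Q = Q := by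
  rcases Q with _ | ⟨x, y, hn⟩ <;> rfl

theorem act_congr {K' : Type u} [Field K'] [Algebra R K'] [Algebra K' Ω] [IsScalarTower R K' Ω]
    {σ : Ω ≃ₐ[K] Ω} {σ' : Ω ≃ₐ[K'] Ω} (h : ∀ x, σ x = σ' x) (Q : Pts W Ω) :
    act W σ Q = act W σ' Q := by
  rcases Q with _ | ⟨a, b, hn⟩
  · rfl
  · simp only [act, Point.map_some, Point.some.injEq]
    exact ⟨h a, h b⟩

theorem act_fix (Q : Pts W Ω) : ∃ S : Finset Ω, ∀ σ : Ω ≃ₐ[K] Ω, (∀ x ∈ S, σ x = x) →
    act W σ Q = Q := by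
  rcases Q with _ | ⟨a, b, hn⟩
  · exact ⟨∅, fun _ _ => rfl⟩
  · refine ⟨{a, b}, fun σ h => ?_⟩
    simp only [act, Point.map_some, Point.some.injEq]
    exact ⟨h a (by simp), h b (by simp)⟩

end maps

section top

variable {K Ω : Type u} [Field K] [Field Ω] [Algebra K Ω]

theorem nhds_one_iff [Algebra.IsIntegral K Ω] (s : Set (Ω ≃ₐ[K] Ω)) :
    s ∈ 𝓝 (1 : Ω ≃ₐ[K] Ω) ↔ ∃ S : Finset Ω, ∀ σ : Ω ≃ₐ[K] Ω, (∀ x ∈ S, σ x = x) → σ ∈ s := by
  rw [krullTopology_mem_nhds_one_iff]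
  constructor
  · rintro ⟨E, hE, h⟩
    obtain ⟨S, hS⟩ : E.toSubalgebra.toSubmodule.FG := Module.Finite.iff_fg.1 hE
    refine ⟨S, fun σ hσ => h ?_⟩
    rw [SetLike.mem_coe, IntermediateField.mem_fixingSubgroup_iff]
    intro x hx
    have hx' : x ∈ Submodule.span K (S : Set Ω) := by rw [hS]; exact hx
    induction hx' using Submodule.span_induction with
    | mem y hy => exact hσ y hy
    | zero => simp
    | add y z hy hz ihy ihz =>
      rw [map_add, ihy (show y ∈ E.toSubalgebra.toSubmodule from hS ▸ hy),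
        ihz (show z ∈ E.toSubalgebra.toSubmodule from hS ▸ hz)]
    | smul a y hy ih => rw [map_smul, ih (show y ∈ E.toSubalgebra.toSubmodule from hS ▸ hy)]
  · rintro ⟨S, h⟩
    refine ⟨IntermediateField.adjoin K (S : Set Ω),
      IntermediateField.finiteDimensional_adjoin fun x _ => Algebra.IsIntegral.isIntegral x,
      fun σ hσ => h σ fun x hx => ?_⟩
    rw [SetLike.mem_coe, IntermediateField.mem_fixingSubgroup_iff] at hσ
    exact hσ x (IntermediateField.subset_adjoin K _ hx)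

theorem lc_of_fin [Algebra.IsIntegral K Ω] {Y : Type*} {c : (Ω ≃ₐ[K] Ω) → Y} (S : Finset Ω)
    (h : ∀ σ τ : Ω ≃ₐ[K] Ω, (∀ x ∈ S, τ x = x) → c (σ * τ) = c σ) : IsLocallyConstant c := by
  rw [IsLocallyConstant.iff_eventually_eq]
  intro σ
  have h1 : {τ : Ω ≃ₐ[K] Ω | ∀ x ∈ S, τ x = x} ∈ 𝓝 (1 : Ω ≃ₐ[K] Ω) :=
    (nhds_one_iff _).2 ⟨S, fun _ h => h⟩
  have h2 : Filter.Tendsto (fun τ => σ⁻¹ * τ) (𝓝 σ) (𝓝 1) := by
    have := (continuous_const_mul σ⁻¹).tendsto σ
    rwa [inv_mul_cancel] at this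
  filter_upwards [h2 h1] with τ hτ
  rw [← h σ _ hτ, mul_inv_cancel_left]

variable [Algebra R K] [Algebra R Ω] [IsScalarTower R K Ω] [DecidableEq Ω]

theorem IsCocycle.one {c : (Ω ≃ₐ[K] Ω) → Pts W Ω} (hc : IsCocycle W c) : c 1 = 0 := by
  have := hc.2 1 1
  rw [one_mul, act_one] at this
  simpa using this

theorem IsCocycle.fin [Algebra.IsIntegral K Ω] {c : (Ω ≃ₐ[K] Ω) → Pts W Ω} (hc : IsCocycle W c) :
    ∃ S : Finset Ω, ∀ σ : Ω ≃ₐ[K] Ω, (∀ x ∈ S, σ x = x) → c σ = 0 := by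
  have := hc.1.eventually_eq 1
  rw [hc.one] at this
  exact (nhds_one_iff _).1 this

theorem isCocycle_of_fin [Algebra.IsIntegral K Ω] {c : (Ω ≃ₐ[K] Ω) → Pts W Ω} (S : Finset Ω)
    (h0 : ∀ σ : Ω ≃ₐ[K] Ω, (∀ x ∈ S, σ x = x) → c σ = 0)
    (h : ∀ σ τ, c (σ * τ) = c σ + act W σ (c τ)) : IsCocycle W c :=
  ⟨lc_of_fin S fun σ τ hτ => by rw [h, h0 τ hτ, map_zero, add_zero], h⟩

theorem cob_cocycle [Algebra.IsIntegral K Ω] (Q : Pts W Ω) :
    IsCocycle W (fun σ : Ω ≃ₐ[K] Ω => act W σ Q - Q) := by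
  obtain ⟨S, hS⟩ := act_fix (K := K) Q
  refine isCocycle_of_fin S (fun σ h => by rw [hS σ h, sub_self]) fun σ τ => ?_
  simp only [act_mul, map_sub]
  abel

theorem IsCocycle.sub {f g : (Ω ≃ₐ[K] Ω) → Pts W Ω}
    (hf : IsCocycle W f) (hg : IsCocycle W g) : IsCocycle W (f - g) := by
  refine ⟨hf.1.comp₂ hg.1 (· - ·), fun σ τ => ?_⟩
  simp only [Pi.sub_apply, hf.2, hg.2, map_sub]
  abel

theorem IsCocycle.nsmul {f : (Ω ≃ₐ[K] Ω) → Pts W Ω} (hf : IsCocycle W f) (n : ℕ) :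
    IsCocycle W (n • f) := by
  refine ⟨hf.1.comp (n • ·), fun σ τ => ?_⟩
  simp only [Pi.smul_apply, hf.2, map_nsmul, smul_add]

theorem IsCoboundary.sub {f g : (Ω ≃ₐ[K] Ω) → Pts W Ω}
    (hf : IsCoboundary W f) (hg : IsCoboundary W g) : IsCoboundary W (f - g) := by
  obtain ⟨P, hP⟩ := hf
  obtain ⟨Q, hQ⟩ := hg
  exact ⟨P - Q, fun σ => by rw [Pi.sub_apply, hP, hQ, map_sub]; abel⟩

theorem IsCoboundary.add {f g : (Ω ≃ₐ[K] Ω) → Pts W Ω}
    (hf : IsCoboundary W f) (hg : IsCoboundary W g) : IsCoboundary W (f + g) := by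
  obtain ⟨P, hP⟩ := hf
  obtain ⟨Q, hQ⟩ := hg
  exact ⟨P + Q, fun σ => by rw [Pi.add_apply, hP, hQ, map_add]; abel⟩

theorem IsCoboundary.nsmul {f : (Ω ≃ₐ[K] Ω) → Pts W Ω} (hf : IsCoboundary W f) (n : ℕ) :
    IsCoboundary W (n • f) := by
  obtain ⟨P, hP⟩ := hf
  exact ⟨n • P, fun σ => by rw [Pi.smul_apply, hP, map_nsmul, smul_sub]⟩

end top

section transport

variable {K Ω : Type u} [Field K] [Field Ω] [Algebra R K] [Algebra K Ω] [Algebra R Ω]
  [IsScalarTower R K Ω] [DecidableEq Ω] [Normal K Ω]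
  {L1 Λ1 L2 Λ2 : Type u} [Field L1] [Field Λ1] [Algebra R L1] [Algebra L1 Λ1]
  [Algebra R Λ1] [IsScalarTower R L1 Λ1] [DecidableEq Λ1] [IsGalois L1 Λ1]
  [Field L2] [Field Λ2] [Algebra R L2] [Algebra L2 Λ2]
  [Algebra R Λ2] [IsScalarTower R L2 Λ2] [DecidableEq Λ2] [IsSepClosed Λ2]

omit [DecidableEq Ω] [DecidableEq Λ2] [IsSepClosed Λ2] [Algebra R K] [IsScalarTower R K Ω] in
theorem exists_conj (ι2 ι3 : Ω →ₐ[R] Λ2)
    (h : ∀ x : K, ι2 (algebraMap K Ω x) = ι3 (algebraMap K Ω x)) :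
    ∃ σ0 : Ω ≃ₐ[K] Ω, ∀ x, ι2 (σ0 x) = ι3 x := by
  let _ : Algebra Ω Λ2 := ι2.toRingHom.toAlgebra
  let _ : Algebra K Λ2 := (ι2.toRingHom.comp (algebraMap K Ω)).toAlgebra
  have _ : IsScalarTower K Ω Λ2 := IsScalarTower.of_algebraMap_eq fun x => rfl
  let φ : Ω →ₐ[K] Λ2 := { ι3.toRingHom with commutes' := fun x => (h x).symm }
  exact ⟨φ.restrictNormal' Ω, fun x => φ.restrictNormal_commutes Ω x⟩

theorem transport {c : (Ω ≃ₐ[K] Ω) → Pts W Ω} (hc : ∀ σ τ, c (σ * τ) = c σ + act W σ (c τ))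
    (ι1 : Ω →ₐ[R] Λ1) (j1 : K →+* L1)
    (h1 : ∀ x, ι1 (algebraMap K Ω x) = algebraMap L1 Λ1 (j1 x)) (hs : SplitsVia W L1 Λ1 ι1 c)
    (e : L1 →+* Λ2) (ι2 : Ω →ₐ[R] Λ2) (h2 : ∀ x : K, ι2 (algebraMap K Ω x) = e (j1 x)) :
    ∃ P : Pts W Λ2, ∀ (τ : Λ2 ≃ₐ[L2] Λ2) (σ : Ω ≃ₐ[K] Ω), (∀ y, τ (e y) = e y) →
      (∀ x, ι2 (σ x) = τ (ι2 x)) → Point.map (W' := W.toAffine) ι2 (c σ) = act W τ P - P := by
  let _ : Algebra L1 Λ2 := e.toAlgebra
  let κ : Λ1 →ₐ[L1] Λ2 := IsSepClosed.lift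
  have hR : ∀ r : R, κ (algebraMap R Λ1 r) = algebraMap R Λ2 r := by
    intro r
    rw [← ι1.commutes, IsScalarTower.algebraMap_apply R K Ω, h1, κ.commutes, ← ι2.commutes,
      IsScalarTower.algebraMap_apply R K Ω, h2]
    rfl
  let κ' : Λ1 →ₐ[R] Λ2 := { κ.toRingHom with commutes' := hR }
  obtain ⟨σ0, hσ0⟩ := exists_conj (K := K) ι2 (κ'.comp ι1) fun x => by
    rw [h2, AlgHom.comp_apply, h1]
    exact (κ.commutes _).symm
  obtain ⟨P1, hP1⟩ := hs
  refine ⟨Point.map (W' := W.toAffine) κ' P1 - Point.map (W' := W.toAffine) ι2 (c σ0),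
    fun τ σ hτ hσ => ?_⟩
  let τ1 : Λ2 ≃ₐ[L1] Λ2 := { τ.toRingEquiv with commutes' := hτ }
  obtain ⟨τ', hτ'⟩ := ShaFF.exists_res κ τ1
  have k1 : ∀ x, ι1 ((σ0⁻¹ * σ * σ0) x) = τ' (ι1 x) := by
    intro x
    apply κ.injective
    have e1 := hσ0 ((σ0⁻¹ * σ * σ0) x)
    have e2 := hσ0 x
    refine Eq.trans ?_ (hτ' _).symm
    change κ'.comp ι1 _ = τ (κ'.comp ι1 x)
    rw [← e1, ← e2, ← hσ]
    simp [AlgEquiv.mul_apply]
  have k2 := congrArg (Point.map (W' := W.toAffine) κ') (hP1 τ' _ k1)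
  rw [map_map_eq, ← map_act_eq ι2 _ hσ0, map_sub, map_act κ' (τ := τ) hτ'] at k2
  have k3 := hc σ0 (σ0⁻¹ * σ * σ0)
  rw [show σ0 * (σ0⁻¹ * σ * σ0) = σ * σ0 by group, hc] at k3
  have k4 := congrArg (Point.map (W' := W.toAffine) ι2) k3
  rw [map_add, map_add, k2, map_act ι2 hσ] at k4
  rw [map_sub, ← sub_eq_zero, ← sub_eq_zero.2 k4]
  abel

end transport

end Pool.Agent.ShaAsc
end
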