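import Pool.Agent.Work.MP_60d5ce_nt.Asc.Basic

-- merged part: Pool.Agent.Work.MP_60d5ce_nt.Asc.Cores
section
/-!
# Restriction and corestriction for a finite extension
-/

namespace Pool.Agent.ShaAsc

open WeierstrassCurve WeierstrassCurve.Affine

universe u

section defs

variable (K K' Ω : Type u) [Field K] [Field K'] [Field Ω] [Algebra K K'] [Algebra K Ω]
  [Algebra K' Ω] [IsScalarTower K K' Ω]

/-- `Gal(Ω/K')` as a subgroup of `Gal(Ω/K)` -/
def Hs : Subgroup (Ω ≃ₐ[K] Ω) := (IsScalarTower.toAlgHom K K' Ω).fieldRange.fixingSubgroup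

/-- the coset space -/
abbrev Xs : Type u := (Ω ≃ₐ[K] Ω) ⧸ Hs K K' Ω

/-- the base point -/
def x0 : Xs K K' Ω := ((1 : Ω ≃ₐ[K] Ω) : Xs K K' Ω)

variable {K K' Ω}

theorem mem_Hs {σ : Ω ≃ₐ[K] Ω} :
    σ ∈ Hs K K' Ω ↔ ∀ x : K', σ (algebraMap K' Ω x) = algebraMap K' Ω x := by
  rw [Hs, IntermediateField.mem_fixingSubgroup_iff]
  constructor
  · exact fun h x => h _ ⟨x, rfl⟩
  · rintro h _ ⟨x, rfl⟩
    exact h x

theorem smul_x0_iff {σ : Ω ≃ₐ[K] Ω} : σ • x0 K K' Ω = x0 K K' Ω ↔ σ ∈ Hs K K' Ω := by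
  rw [x0, MulAction.Quotient.smul_mk, QuotientGroup.eq]
  simp

theorem out_smul (x : Xs K K' Ω) : x.out • x0 K K' Ω = x := by
  rw [x0, MulAction.Quotient.smul_mk]
  simp

/-- an element of `Hs` as a `K'`-automorphism -/
def toH (σ : Ω ≃ₐ[K] Ω) (h : σ ∈ Hs K K' Ω) : Ω ≃ₐ[K'] Ω :=
  { σ.toRingEquiv with commutes' := mem_Hs.1 h }

theorem toH_apply (σ : Ω ≃ₐ[K] Ω) (h : σ ∈ Hs K K' Ω) (x : Ω) : toH σ h x = σ x := rfl

theorem res_mem (h : Ω ≃ₐ[K'] Ω) : h.restrictScalars K ∈ Hs K K' Ω := mem_Hs.2 h.commutes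

variable (K) in
open Classical in
/-- extension by zero -/
noncomputable def ext0 {A : Type*} [Zero A] (f : (Ω ≃ₐ[K'] Ω) → A) (σ : Ω ≃ₐ[K] Ω) : A :=
  if h : σ ∈ Hs K K' Ω then f (toH σ h) else 0

theorem ext0_of_mem {A : Type*} [Zero A] (f : (Ω ≃ₐ[K'] Ω) → A) {σ : Ω ≃ₐ[K] Ω}
    (h : σ ∈ Hs K K' Ω) : ext0 K f σ = f (toH σ h) := dif_pos h

theorem card_Xs [IsGalois K Ω] : Nat.card (Xs K K' Ω) = Module.finrank K K' := by
  have h1 := IntermediateField.finrank_eq_fixingSubgroup_index (F := K) (E' := Ω)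
    (IsScalarTower.toAlgHom K K' Ω).fieldRange
  rw [← (AlgHom.equivFieldRange (IsScalarTower.toAlgHom K K' Ω)).toLinearEquiv.finrank_eq] at h1
  exact h1.symm

noncomputable instance fintypeXs [IsGalois K Ω] [FiniteDimensional K K'] :
    Fintype (Xs K K' Ω) :=
  have : Finite (Xs K K' Ω) := Nat.finite_of_card_ne_zero (by
    rw [card_Xs]; exact Module.finrank_pos.ne')
  Fintype.ofFinite _

end defs

variable {R : Type u} [Field R] {K K' Ω : Type u} [Field K] [Field K'] [Field Ω] [Algebra K K']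
  [Algebra K Ω] [Algebra K' Ω] [IsScalarTower K K' Ω] [Algebra R K] [Algebra R K'] [Algebra R Ω]
  [IsScalarTower R K Ω] [IsScalarTower R K' Ω] [DecidableEq Ω] [IsGalois K Ω]
  [FiniteDimensional K K'] {W : WeierstrassCurve R}

variable (K W) in
/-- corestriction -/
noncomputable def cores (f : (Ω ≃ₐ[K'] Ω) → Pts W Ω) : (Ω ≃ₐ[K] Ω) → Pts W Ω :=
  cor (act W) (fun x : Xs K K' Ω => x.out) (ext0 K f)

variable (K') in
/-- restriction -/
def res {A : Type*} (c : (Ω ≃ₐ[K] Ω) → A) : (Ω ≃ₐ[K'] Ω) → A := fun h => c (h.restrictScalars K)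

omit [IsGalois K Ω] [FiniteDimensional K K'] in
theorem ext0_mul {f : (Ω ≃ₐ[K'] Ω) → Pts W Ω} (hf : ∀ σ τ, f (σ * τ) = f σ + act W σ (f τ))
    (σ τ : Ω ≃ₐ[K] Ω) (hσ : σ • x0 K K' Ω = x0 K K' Ω) (hτ : τ • x0 K K' Ω = x0 K K' Ω) :
    ext0 K f (σ * τ) = ext0 K f σ + act W σ (ext0 K f τ) := by
  rw [smul_x0_iff] at hσ hτ
  rw [ext0_of_mem f hσ, ext0_of_mem f hτ, ext0_of_mem f (mul_mem hσ hτ),
    act_congr (σ := σ) (σ' := toH σ hσ) (fun _ => rfl), ← hf]
  rfl

omit [Algebra R K'] [IsScalarTower R K' Ω] in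
theorem cores_sub (f g : (Ω ≃ₐ[K'] Ω) → Pts W Ω) :
    cores K W (f - g) = cores K W f - cores K W g := by
  unfold cores
  rw [← cor_sub]
  exact cor_congr out_smul fun σ h => by
    rw [smul_x0_iff] at h
    simp only [Pi.sub_apply, ext0_of_mem _ h]

omit [Algebra R K'] [IsScalarTower R K' Ω] in
theorem cores_nsmul (n : ℕ) (f : (Ω ≃ₐ[K'] Ω) → Pts W Ω) :
    cores K W (n • f) = n • cores K W f := by
  unfold cores
  rw [← cor_nsmul]
  exact cor_congr out_smul fun σ h => by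
    rw [smul_x0_iff] at h
    simp only [Pi.smul_apply, ext0_of_mem _ h]

theorem IsCoboundary.cores {f : (Ω ≃ₐ[K'] Ω) → Pts W Ω} (hf : IsCoboundary W f) :
    IsCoboundary W (cores K W f) := by
  obtain ⟨P, hP⟩ := hf
  refine ⟨_, cor_cob act_mul out_smul (P := P) fun σ h => ?_⟩
  rw [smul_x0_iff] at h
  rw [ext0_of_mem _ h, hP, act_congr (σ := σ) (σ' := toH σ h) (fun _ => rfl)]

omit [Algebra R K'] [IsScalarTower R K' Ω] in
theorem cores_res {c : (Ω ≃ₐ[K] Ω) → Pts W Ω} (hc : ∀ σ τ, c (σ * τ) = c σ + act W σ (c τ)) :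
    IsCoboundary W (cores K W (res K' c) - Module.finrank K K' • c) := by
  have : cores K W (res K' c) = cor (act W) (fun x : Xs K K' Ω => x.out) c :=
    cor_congr out_smul fun σ h => by
      rw [smul_x0_iff] at h
      rw [ext0_of_mem _ h]
      rfl
  refine ⟨∑ x : Xs K K' Ω, c x.out, fun σ => ?_⟩
  rw [Pi.sub_apply, this, cor_res hc, ← Nat.card_eq_fintype_card, card_Xs, Pi.smul_apply]
  abel

theorem IsCocycle.cores {f : (Ω ≃ₐ[K'] Ω) → Pts W Ω} (hf : IsCocycle W f) :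
    IsCocycle W (cores K W f) := by
  classical
  have : Algebra.IsIntegral K' Ω := Algebra.IsIntegral.tower_top (R := K)
  obtain ⟨S, hS⟩ := hf.fin
  obtain ⟨B, hB⟩ : (⊤ : Submodule K K').FG := Module.finite_def.1 inferInstance
  let T : Finset Ω := S ∪ B.image (algebraMap K' Ω)
  have key : ∀ σ : Ω ≃ₐ[K] Ω, (∀ y ∈ T, σ y = y) → σ ∈ Hs K K' Ω ∧ ext0 K f σ = 0 := by
    intro σ h
    have h1 : σ ∈ Hs K K' Ω := by
      rw [mem_Hs]
      intro x
      have hx : x ∈ Submodule.span K (B : Set K') := by rw [hB]; trivial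
      induction hx using Submodule.span_induction with
      | mem y hy => exact h _ (Finset.mem_union_right _ (Finset.mem_image_of_mem _ hy))
      | zero => simp
      | add y z _ _ ihy ihz => rw [map_add, map_add, ihy, ihz]
      | smul a y _ ih =>
        rw [Algebra.smul_def, map_mul, map_mul, ih, ← IsScalarTower.algebraMap_apply,
          AlgEquiv.commutes]
    exact ⟨h1, by rw [ext0_of_mem _ h1]; exact hS _ fun y hy => h y (Finset.mem_union_left _ hy)⟩
  refine isCocycle_of_fin (Finset.univ.biUnion fun x : Xs K K' Ω => T.image x.out)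
    (fun σ h => ?_) (cor_mul act_mul out_smul (ext0_mul hf.2))
  refine Finset.sum_eq_zero fun x _ => ?_
  obtain ⟨k1, k2⟩ := key ((x.out)⁻¹ * σ * x.out) fun y hy => by
    rw [AlgEquiv.mul_apply, AlgEquiv.mul_apply,
      h _ (Finset.mem_biUnion.2 ⟨x, Finset.mem_univ _, Finset.mem_image_of_mem _ hy⟩)]
    simp
  have k3 : σ⁻¹ • x = x := by
    rw [← smul_x0_iff, mul_smul, mul_smul, out_smul, inv_smul_eq_iff, out_smul] at k1
    rw [inv_smul_eq_iff, k1]
  rw [Sh, k3, k2, map_zero]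

omit [FiniteDimensional K K'] in
theorem IsCocycle.res {c : (Ω ≃ₐ[K] Ω) → Pts W Ω} (hc : IsCocycle W c) :
    IsCocycle W (res K' c) := by
  have : Algebra.IsIntegral K' Ω := Algebra.IsIntegral.tower_top (R := K)
  obtain ⟨S, hS⟩ := hc.fin
  refine isCocycle_of_fin S (fun σ h => hS _ h) fun σ τ => ?_
  rw [act_congr (σ := σ) (σ' := σ.restrictScalars K) (fun _ => rfl)]
  exact hc.2 (σ.restrictScalars K) (τ.restrictScalars K)

omit [FiniteDimensional K K'] [IsGalois K Ω] in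
theorem IsCoboundary.res {c : (Ω ≃ₐ[K] Ω) → Pts W Ω} (hc : IsCoboundary W c) :
    IsCoboundary W (res K' c) := by
  obtain ⟨P, hP⟩ := hc
  exact ⟨P, fun σ => (hP _).trans (by
    rw [act_congr (σ := σ) (σ' := σ.restrictScalars K) (fun _ => rfl)])⟩

end Pool.Agent.ShaAsc
end

-- merged part: Pool.Agent.Work.MP_60d5ce_nt.Descent
section
/-!
# The abstract full 2-descent
-/

namespace Pool.Agent.ShaFF

open WeierstrassCurve WeierstrassCurve.Affine

universe u

variable {K : Type u} [Field K]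

theorem Spl.four_ne_zero {L : Type u} [Field L] [DecidableEq L] {V : Affine L} {e1 e2 e3 : L}
    (h : Spl V e1 e2 e3) {Q : V.Point} (hQ : Q + Q ≠ 0) (h1 : rr V e1 Q ≠ 0) (h2 : rr V e2 Q ≠ 0)
    (h3 : rr V e3 Q ≠ 0) : (Q + Q) + (Q + Q) ≠ 0 := by
  intro H
  rcases h.two_torsion H with H0 | ⟨x, hn, H0, hx⟩
  · exact hQ H0
  have k1 := h.xx_two hQ
  have k2 := h.swap12.xx_two hQ
  have k3 := h.swap13.xx_two hQ
  rw [H0] at k1 k2 k3
  simp only [xx] at k1 k2 k3
  rcases hx with rfl | rfl | rfl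
  · exact h1 (by simpa using k1.symm)
  · exact h2 (by simpa using k2.symm)
  · exact h3 (by simpa using k3.symm)

section loc

variable {W : WeierstrassCurve K} {e1 e2 e3 : K} {L : Type u} [Field L] [Algebra K L]
  {Ω : Type u} [Field Ω] [Algebra K Ω] [DecidableEq Ω] [Normal K Ω]
  {Λ : Type u} [Field Λ] [Algebra L Λ] [Algebra K Λ] [IsScalarTower K L Λ] [DecidableEq Λ]
  [IsGalois L Λ]

theorem local_root (h : Spl W.toAffine e1 e2 e3) (f : (Ω ≃ₐ[K] Ω) → Pts W Ω)
    (h2 : ∀ σ, f σ + f σ = 0) (ι : Ω →ₐ[K] Λ) (P : Pts W Λ) (hP4 : (P + P) + (P + P) ≠ 0)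
    (hP : ∀ (τ : Λ ≃ₐ[L] Λ) (σ : Ω ≃ₐ[K] Ω), (∀ x, ι (σ x) = τ (ι x)) →
      Point.map (W' := W.toAffine) ι (f σ) = Point.map (W' := W.toAffine) τ.toAlgHom P - P)
    (X : L) (hX : algebraMap L Λ X = xx (P + P))
    (r : Ω) (hr : ∀ σ : Ω ≃ₐ[K] Ω, σ r = chi (algebraMap K Ω e1) (f σ) * r)
    (b : K) (hb : algebraMap K Ω b = r ^ 2) :
    ∃ z : L, algebraMap K L b = (X - algebraMap K L e1) * z ^ 2 := by
  have hL := h.baseChange Λ
  have hP2 : P + P ≠ 0 := fun H => hP4 (by rw [H, add_zero])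
  set ρ := rr (W.toAffine.baseChange Λ) (algebraMap K _ e1) P with hρ
  have hρ0 : ρ ≠ 0 := hL.rr_ne_zero hP4
  have hfix : ∀ τ : Λ ≃ₐ[L] Λ, τ (ι r / ρ) = ι r / ρ := by
    intro τ
    obtain ⟨σ, hσ⟩ := exists_res ι τ
    have k1 : τ ρ = chi (algebraMap K _ e1) (Point.map (W' := W.toAffine) ι (f σ)) * ρ := by
      have k0 := rr_map W τ.toAlgHom e1 P
      have k2 : Point.map (W' := W.toAffine) τ.toAlgHom P =
          P + Point.map (W' := W.toAffine) ι (f σ) := by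
        rw [hP τ σ hσ]; abel
      rw [k2, hL.rr_add hP2 (by rw [← map_add, h2, map_zero])] at k0
      exact k0.symm
    have k2 : τ (ι r) = chi (algebraMap K _ e1) (Point.map (W' := W.toAffine) ι (f σ)) * ι r := by
      rw [← hσ, hr, map_mul, chi_map]
    rw [map_div₀, k1, k2, mul_div_mul_left _ _ (chi_ne_zero _ _)]
  obtain ⟨z, hz⟩ := fixed_mem _ hfix
  refine ⟨z, (algebraMap L Λ).injective ?_⟩
  have k3 := hL.xx_two hP2
  rw [← hρ, ← hX] at k3
  rw [map_mul, map_sub, map_pow, hz, ← IsScalarTower.algebraMap_apply,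
    ← IsScalarTower.algebraMap_apply, k3, ← algHom_algebraMap ι b, hb, map_pow]
  field_simp

theorem local_step (h : Spl W.toAffine e1 e2 e3) (f : (Ω ≃ₐ[K] Ω) → Pts W Ω)
    (h2 : ∀ σ, f σ + f σ = 0) (ι : Ω →ₐ[K] Λ) (hs : SplitsVia W L Λ ι f)
    (S : Pts W Λ) (hS : (S + S) + (S + S) ≠ 0)
    (hS' : ∀ τ : Λ ≃ₐ[L] Λ, Point.map (W' := W.toAffine) τ.toAlgHom S = S)
    (r1 r2 r3 : Ω)
    (hr1 : ∀ σ : Ω ≃ₐ[K] Ω, σ r1 = chi (algebraMap K Ω e1) (f σ) * r1)
    (hr2 : ∀ σ : Ω ≃ₐ[K] Ω, σ r2 = chi (algebraMap K Ω e2) (f σ) * r2)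
    (hr3 : ∀ σ : Ω ≃ₐ[K] Ω, σ r3 = chi (algebraMap K Ω e3) (f σ) * r3)
    (b1 b2 b3 : K) (hb1 : algebraMap K Ω b1 = r1 ^ 2)
    (hb2 : algebraMap K Ω b2 = r2 ^ 2)
    (hb3 : algebraMap K Ω b3 = r3 ^ 2) :
    ∃ X z1 z2 z3 : L, algebraMap K L b1 = (X - algebraMap K L e1) * z1 ^ 2 ∧
      algebraMap K L b2 = (X - algebraMap K L e2) * z2 ^ 2 ∧
      algebraMap K L b3 = (X - algebraMap K L e3) * z3 ^ 2 := by
  obtain ⟨P, hP4, hP⟩ : ∃ P : Pts W Λ, (P + P) + (P + P) ≠ 0 ∧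
      ∀ (τ : Λ ≃ₐ[L] Λ) (σ : Ω ≃ₐ[K] Ω), (∀ x, ι (σ x) = τ (ι x)) →
      Point.map (W' := W.toAffine) ι (f σ) = Point.map (W' := W.toAffine) τ.toAlgHom P - P := by
    obtain ⟨P, hP⟩ := hs
    by_cases hP4 : (P + P) + (P + P) = 0
    · refine ⟨P + S, ?_, fun τ σ hσ => ?_⟩
      · have : (P + S + (P + S)) + (P + S + (P + S)) = ((P + P) + (P + P)) + ((S + S) + (S + S)) := by
          abel
        rw [this, hP4, zero_add]; exact hS
      · rw [map_add, hS', hP τ σ hσ]; abel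
    · exact ⟨P, hP4, hP⟩
  have hfix : ∀ τ : Λ ≃ₐ[L] Λ, τ (xx (P + P)) = xx (P + P) := by
    intro τ
    obtain ⟨σ, hσ⟩ := exists_res ι τ
    have k0 := xx_map W τ.toAlgHom (P + P)
    have k2 : Point.map (W' := W.toAffine) τ.toAlgHom P =
        P + Point.map (W' := W.toAffine) ι (f σ) := by
      rw [hP τ σ hσ]; abel
    rw [map_add, k2, add_add_add_comm, ← map_add, h2, map_zero, add_zero] at k0
    exact k0.symm
  obtain ⟨X, hX⟩ := fixed_mem _ hfix
  obtain ⟨z1, hz1⟩ := local_root h f h2 ι P hP4 hP X hX r1 hr1 b1 hb1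
  obtain ⟨z2, hz2⟩ := local_root h.swap12 f h2 ι P hP4 hP X hX r2 hr2 b2 hb2
  obtain ⟨z3, hz3⟩ := local_root h.swap13 f h2 ι P hP4 hP X hX r3 hr3 b3 hb3
  exact ⟨X, z1, z2, z3, hz1, hz2, hz3⟩

end loc

/-- `a` and `b` agree to first order at `v` -/
def Apx (v : AbsoluteValue K ℝ) (a b : K) : Prop := v (a - b) < v a

theorem norm_algebraMap_completion (v : AbsoluteValue K ℝ) (a : K) :
    ‖algebraMap K v.Completion a‖ = v a := by
  have : algebraMap K v.Completion a = ((WithAbs.toAbs v a : WithAbs v) : v.Completion) := rfl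
  rw [this, UniformSpace.Completion.norm_coe]
  rfl

theorem denseRange_completion (v : AbsoluteValue K ℝ) :
    DenseRange (algebraMap K v.Completion) := by
  have h1 : DenseRange ((↑) : WithAbs v → v.Completion) := UniformSpace.Completion.denseRange_coe
  have h2 : Function.Surjective (WithAbs.toAbs v) := fun x => ⟨x.ofAbs, rfl⟩
  exact h1.comp h2.denseRange (UniformSpace.Completion.continuous_coe _)

theorem transfer (v : AbsoluteValue K ℝ) {e1 e2 e3 b1 b2 b3 : K} (h1 : b1 ≠ 0) (h2 : b2 ≠ 0)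
    (h3 : b3 ≠ 0)
    (H : ∃ X z1 z2 z3 : v.Completion,
      algebraMap K _ b1 = (X - algebraMap K _ e1) * z1 ^ 2 ∧
      algebraMap K _ b2 = (X - algebraMap K _ e2) * z2 ^ 2 ∧
      algebraMap K _ b3 = (X - algebraMap K _ e3) * z3 ^ 2) :
    ∃ X z1 z2 z3 : K, Apx v b1 ((X - e1) * z1 ^ 2) ∧ Apx v b2 ((X - e2) * z2 ^ 2) ∧
      Apx v b3 ((X - e3) * z3 ^ 2) := by
  obtain ⟨X, z1, z2, z3, k1, k2, k3⟩ := H
  have hd := denseRange_completion v
  have hd4 := hd.prodMap (hd.prodMap (hd.prodMap hd))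
  let U : Set (v.Completion × v.Completion × v.Completion × v.Completion) :=
    {p | ‖algebraMap K _ b1 - (p.1 - algebraMap K _ e1) * p.2.1 ^ 2‖ < v b1} ∩
    ({p | ‖algebraMap K _ b2 - (p.1 - algebraMap K _ e2) * p.2.2.1 ^ 2‖ < v b2} ∩
    {p | ‖algebraMap K _ b3 - (p.1 - algebraMap K _ e3) * p.2.2.2 ^ 2‖ < v b3})
  have hU : IsOpen U := by
    refine IsOpen.inter ?_ (IsOpen.inter ?_ ?_) <;>
      exact isOpen_lt (by fun_prop) continuous_const
  have hne : U.Nonempty := by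
    refine ⟨(X, z1, z2, z3), ?_, ?_, ?_⟩
    · simp [k1, v.pos h1]
    · simp [k2, v.pos h2]
    · simp [k3, v.pos h3]
  obtain ⟨⟨X', y1, y2, y3⟩, m1, m2, m3⟩ := hd4.exists_mem_open hU hne
  refine ⟨X', y1, y2, y3, ?_, ?_, ?_⟩
  · simpa [Apx, ← norm_algebraMap_completion] using m1
  · simpa [Apx, ← norm_algebraMap_completion] using m2
  · simpa [Apx, ← norm_algebraMap_completion] using m3

section main

variable {W : WeierstrassCurve K} {e1 e2 e3 : K}
  {Ω : Type u} [Field Ω] [Algebra K Ω] [DecidableEq Ω]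

theorem global_root [IsGalois K Ω] (h : Spl W.toAffine e1 e2 e3) (f : (Ω ≃ₐ[K] Ω) → Pts W Ω)
    (hf : IsCocycle W f) (h2 : ∀ σ, f σ + f σ = 0)
    (S : Pts W Ω) (hS : (S + S) + (S + S) ≠ 0) :
    ∃ (r : Ω) (b : K), b ≠ 0 ∧ algebraMap K Ω b = r ^ 2 ∧
      ∀ σ : Ω ≃ₐ[K] Ω, σ r = chi (algebraMap K Ω e1) (f σ) * r := by
  have hL := h.baseChange Ω
  obtain ⟨r, hr0, hr⟩ := kummer (fun σ => chi (algebraMap K Ω e1) (f σ))
    (hf.1.comp (chi (algebraMap K Ω e1))) (fun σ => chi_cases _ _) (fun σ τ => by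
      have : act W σ (f τ) = f τ := map_two_torsion h σ.toAlgHom (h2 τ)
      rw [hf.2, this, hL.chi_add hS (h2 σ) (h2 τ)])
  obtain ⟨b, hb⟩ := fixed_mem (r ^ 2) (fun σ => by
    rw [map_pow, hr, mul_pow, sq (chi _ _), chi_sq, one_mul])
  refine ⟨r, b, ?_, hb, hr⟩
  rintro rfl
  rw [map_zero] at hb
  exact hr0 (pow_eq_zero_iff (two_ne_zero) |>.1 hb.symm)

theorem chi_sum {L : Type u} [Field L] [DecidableEq L] {V : Affine L} {e1 e2 e3 : L} (h : Spl V e1 e2 e3)
    {S : V.Point} (hS : (S + S) + (S + S) ≠ 0) {J : Type*} (A : Finset J) (T : J → V.Point)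
    (hT : ∀ j, T j + T j = 0) :
    (∑ j ∈ A, T j) + (∑ j ∈ A, T j) = 0 ∧ chi e1 (∑ j ∈ A, T j) = ∏ j ∈ A, chi e1 (T j) := by
  classical
  induction A using Finset.induction_on with
  | empty => simp [chi_zero]
  | insert a s ha ih =>
    rw [Finset.sum_insert ha, Finset.prod_insert ha, h.chi_add hS (hT a) ih.1, ih.2,
      add_add_add_comm, hT, ih.1, add_zero]
    exact ⟨rfl, rfl⟩

theorem kill_root (h : Spl W.toAffine e1 e2 e3) (f : (Ω ≃ₐ[K] Ω) → Pts W Ω)
    (h2 : ∀ σ, f σ + f σ = 0)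
    (S : Pts W Ω) (hS : (S + S) + (S + S) ≠ 0)
    {J : Type*} (x y : J → K) (hy : ∀ j, y j ≠ 0)
    (he : ∀ j, y j ^ 2 = (x j - e1) * (x j - e2) * (x j - e3))
    (Q : J → Pts W Ω)
    (hQx : ∀ j, xx (Q j + Q j) = algebraMap K _ (x j))
    (hQ2 : ∀ j, Q j + Q j ≠ 0)
    (hQ : ∀ j σ, (act W σ (Q j) - Q j) + (act W σ (Q j) - Q j) = 0)
    (r : Ω) (b : K) (hb0 : b ≠ 0)
    (hb : algebraMap K Ω b = r ^ 2)
    (hr : ∀ σ : Ω ≃ₐ[K] Ω, σ r = chi (algebraMap K Ω e1) (f σ) * r)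
    (A : Finset J) (hA : IsSquare (b * ∏ j ∈ A, (x j - e1))) (σ : Ω ≃ₐ[K] Ω) :
    chi (algebraMap K Ω e1) (f σ + ∑ j ∈ A, (act W σ (Q j) - Q j)) = 1 := by
  have hL := h.baseChange Ω
  obtain ⟨k1, k2⟩ := chi_sum hL hS A (fun j => act W σ (Q j) - Q j) (fun j => hQ j σ)
  rw [hL.chi_add hS (h2 σ) k1, k2]
  set ρ : J → Ω := fun j =>
    rr (W.toAffine.baseChange Ω) (algebraMap K _ e1) (Q j) with hρ
  have hρσ : ∀ j, σ (ρ j) = chi (algebraMap K _ e1) (act W σ (Q j) - Q j) * ρ j := by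
    intro j
    have k0 := rr_map W σ.toAlgHom e1 (Q j)
    have k3 : Point.map (W' := W.toAffine) σ.toAlgHom (Q j) = Q j + (act W σ (Q j) - Q j) := by
      simp [act]
    rw [k3, hL.rr_add (hQ2 j) (hQ j σ)] at k0
    exact k0.symm
  have hρ2 : ∀ j, ρ j ^ 2 = algebraMap K _ (x j - e1) := by
    intro j
    rw [map_sub, ← hQx, hL.xx_two (hQ2 j)]
  obtain ⟨k, hk⟩ := hA
  have hx0 : ∀ j, x j - e1 ≠ 0 := by
    intro j H
    apply hy j
    have := he j
    rw [H] at this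
    simpa using this
  have hk0 : k ≠ 0 := by
    rintro rfl
    exact mul_ne_zero hb0 (Finset.prod_ne_zero_iff.2 fun j _ => hx0 j) (by simpa using hk)
  have hsq : (r * ∏ j ∈ A, ρ j) ^ 2 = (algebraMap K _ k) ^ 2 := by
    rw [mul_pow, ← Finset.prod_pow, ← hb, Finset.prod_congr rfl (fun j _ => hρ2 j), ← map_prod,
      ← map_mul, hk, map_mul, sq]
  have hfix : σ (r * ∏ j ∈ A, ρ j) = r * ∏ j ∈ A, ρ j := by
    rcases sq_eq_sq_iff_eq_or_eq_neg.1 hsq with H | H <;> rw [H] <;> simp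
  have hne : r * ∏ j ∈ A, ρ j ≠ 0 := by
    intro H
    rw [H] at hsq
    exact hk0 (by simpa using hsq.symm)
  rw [map_mul, map_prod, hr, Finset.prod_congr rfl (fun j _ => hρσ j), Finset.prod_mul_distrib]
    at hfix
  apply mul_right_cancel₀ hne
  rw [one_mul]
  linear_combination hfix

/-- The abstract 2-descent at the level of cocycles. -/
theorem descent [IsSepClosure K Ω] (h : Spl W.toAffine e1 e2 e3)
    {J : Type*} (x y : J → K) (hy : ∀ j, y j ≠ 0)
    (he : ∀ j, y j ^ 2 = (x j - e1) * (x j - e2) * (x j - e3)) (j0 : J)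
    (s1 : (x j0 - e1) ^ 2 ≠ (e1 - e2) * (e1 - e3))
    (s2 : (x j0 - e2) ^ 2 ≠ (e2 - e1) * (e2 - e3))
    (s3 : (x j0 - e3) ^ 2 ≠ (e3 - e1) * (e3 - e2))
    (H : ∀ b1 b2 b3 : K, b1 ≠ 0 → b2 ≠ 0 → b3 ≠ 0 → IsSquare (b1 * b2 * b3) →
      (∀ v : AbsoluteValue K ℝ, v.IsNontrivial → ∃ X z1 z2 z3 : K,
        Apx v b1 ((X - e1) * z1 ^ 2) ∧ Apx v b2 ((X - e2) * z2 ^ 2) ∧
          Apx v b3 ((X - e3) * z3 ^ 2)) →
      ∃ A : Finset J, IsSquare (b1 * ∏ j ∈ A, (x j - e1)) ∧ IsSquare (b2 * ∏ j ∈ A, (x j - e2)))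
    (f : (Ω ≃ₐ[K] Ω) → Pts W Ω) (hf : InSha W f) (h2 : IsCoboundary W (f + f)) :
    IsCoboundary W f := by
  classical
  have : IsSepClosed Ω := IsSepClosure.sep_closed K
  have hL := h.baseChange Ω
  -- a rational point that is not 4-torsion
  have hS : ∀ (L : Type u) [Field L] [Algebra K L] [DecidableEq L],
      (ptK h (hy j0) (he j0) L + ptK h (hy j0) (he j0) L) +
        (ptK h (hy j0) (he j0) L + ptK h (hy j0) (he j0) L) ≠ 0 := by
    intro L _ _ _
    have hi := (algebraMap K L).injective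
    have hL := h.baseChange L
    have hy' : algebraMap K L (y j0) ≠ 0 := by simpa using hy j0
    have h2 := hL.two
    refine hL.four_ne_zero (fun H => hy' ((hL.two_ne_zero_iff _).1 H)) ?_ ?_ ?_
    · simp only [ptK, rr, hL.a2, hL.a4]
      refine div_ne_zero (fun H => s1 (hi ?_)) (mul_ne_zero h2 hy')
      simp only [map_pow, map_sub, map_mul]
      linear_combination H
    · simp only [ptK, rr, hL.a2, hL.a4]
      refine div_ne_zero (fun H => s2 (hi ?_)) (mul_ne_zero h2 hy')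
      simp only [map_pow, map_sub, map_mul]
      linear_combination H
    · simp only [ptK, rr, hL.a2, hL.a4]
      refine div_ne_zero (fun H => s3 (hi ?_)) (mul_ne_zero h2 hy')
      simp only [map_pow, map_sub, map_mul]
      linear_combination H
  obtain ⟨P0, hP0⟩ := h2
  obtain ⟨Q0, hQ0⟩ := hL.exists_half P0
  set g : (Ω ≃ₐ[K] Ω) → Pts W Ω := f - fun σ => act W σ Q0 - Q0 with hg
  have hgc : IsCocycle W g := hf.1.sub (cob_mem W Q0)
  have hg2 : ∀ σ, g σ + g σ = 0 := by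
    intro σ
    have := hP0 σ
    rw [← hQ0, map_add] at this
    simp only [Pi.add_apply] at this
    simp only [hg, Pi.sub_apply]
    rw [show f σ - (act W σ Q0 - Q0) + (f σ - (act W σ Q0 - Q0)) =
      (f σ + f σ) - (act W σ Q0 + act W σ Q0 - (Q0 + Q0)) by abel, this, sub_self]
  obtain ⟨r1, b1, hb1, hbr1, hr1⟩ := global_root h g hgc hg2 _ (hS _)
  obtain ⟨r2, b2, hb2, hbr2, hr2⟩ := global_root h.swap12 g hgc hg2 _ (hS _)
  obtain ⟨r3, b3, hb3, hbr3, hr3⟩ := global_root h.swap13 g hgc hg2 _ (hS _)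
  obtain ⟨w, hw⟩ := fixed_mem (r1 * r2 * r3) (fun σ => by
    rw [map_mul, map_mul, hr1, hr2, hr3]
    linear_combination (r1 * r2 * r3) * hL.chi_prod (hg2 σ))
  have hsq : IsSquare (b1 * b2 * b3) := by
    refine ⟨w, (algebraMap K Ω).injective ?_⟩
    rw [map_mul, map_mul, map_mul, hw, hbr1, hbr2, hbr3]; ring
  obtain ⟨A, hA1, hA2⟩ := H b1 b2 b3 hb1 hb2 hb3 hsq (fun v hv => by
    apply transfer v hb1 hb2 hb3
    let _ := Classical.decEq (SeparableClosure v.Completion)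
    obtain ⟨ι, P, hP⟩ := hf.2 v hv
    refine local_step h g hg2 ι ?_ _ (hS _) (fun τ => map_ptK h _ _ _) r1 r2 r3 hr1 hr2 hr3
      b1 b2 b3 hbr1 hbr2 hbr3
    refine ⟨P - Point.map (W' := W.toAffine) ι Q0, fun τ σ hσ => ?_⟩
    have k : Point.map (W' := W.toAffine) ι (act W σ Q0) =
        Point.map (W' := W.toAffine) τ.toAlgHom (Point.map (W' := W.toAffine) ι Q0) := by
      rcases Q0 with _ | ⟨a, b, hn⟩
      · rfl
      · simp only [act, Point.map_some, Point.some.injEq]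
        exact ⟨hσ a, hσ b⟩
    simp only [hg, Pi.sub_apply, map_sub, hP τ σ hσ, k]
    abel)
  choose Q hQ using fun j => hL.exists_half (ptK h (hy j) (he j) Ω)
  have hQx : ∀ j, xx (Q j + Q j) = algebraMap K _ (x j) := fun j => by rw [hQ]; rfl
  have hQ2 : ∀ j, Q j + Q j ≠ 0 := fun j => by rw [hQ]; exact Point.some_ne_zero _
  have hQT : ∀ j σ, (act W σ (Q j) - Q j) + (act W σ (Q j) - Q j) = 0 := by
    intro j σ
    rw [show act W σ (Q j) - Q j + (act W σ (Q j) - Q j) =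
      act W σ (Q j) + act W σ (Q j) - (Q j + Q j) by abel, ← map_add, hQ, act, map_ptK, sub_self]
  refine ⟨Q0 - ∑ j ∈ A, Q j, fun σ => ?_⟩
  have c1 := kill_root h g hg2 _ (hS _) x y hy he Q hQx hQ2 hQT r1 b1 hb1 hbr1 hr1 A hA1 σ
  have c2 := kill_root h.swap12 g hg2 _ (hS _) x y hy (fun j => by rw [he]; ring) Q hQx hQ2 hQT
    r2 b2 hb2 hbr2 hr2 A hA2 σ
  have c3 := hL.eq_zero_of_chi c1 c2
  rw [Finset.sum_sub_distrib, ← map_sum] at c3
  simp only [hg, Pi.sub_apply] at c3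
  rw [map_sub, ← sub_eq_zero, ← c3]
  abel

theorem sha_of_descent
    (H : ∀ f : (Ω ≃ₐ[K] Ω) → Pts W Ω, InSha W f → IsCoboundary W (f + f) → IsCoboundary W f)
    (f : (Ω ≃ₐ[K] Ω) → Pts W Ω) (hf : InSha W f) (n : ℕ) (h : IsCoboundary W (2 ^ n • f)) :
    IsCoboundary W f := by
  induction n generalizing f with
  | zero => simpa using h
  | succ n ih =>
    apply H f hf
    apply ih (f + f) hf.add_self
    rw [← two_nsmul, ← mul_nsmul, ← pow_succ']
    exact h

end main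

end Pool.Agent.ShaFF
end

-- merged part: Pool.Agent.Work.MP_60d5ce_nt.Asc.Loc
section
/-!
# Restriction and corestriction preserve the Tate-Shafarevich group
-/

namespace Pool.Agent.ShaAsc

open WeierstrassCurve WeierstrassCurve.Affine

universe u

theorem exists_ext {K M : Type u} [Field K] (v : AbsoluteValue K ℝ) [NormedField M]
    [CompleteSpace M] (j : K →+* M) (hj : ∀ x, ‖j x‖ = v x) :
    ∃ e : v.Completion →+* M, ∀ x, e (algebraMap K _ x) = j x := by
  let f : WithAbs v →+* M := j.comp (WithAbs.equiv v).toRingHom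
  have hf : Isometry f := AddMonoidHomClass.isometry_of_norm f fun x => hj _
  exact ⟨hf.extensionHom, fun x => hf.extensionHom_coe (WithAbs.toAbs v x)⟩

theorem nontrivial_comp {K K' : Type u} [Field K] [Field K'] [Algebra K K'] [FiniteDimensional K K']
    (w : AbsoluteValue K' ℝ) (hw : w.IsNontrivial) :
    (w.comp (algebraMap K K').injective).IsNontrivial := by
  by_contra hv
  have h1 : ∀ a : K, w (algebraMap K K' a) ≤ 1 := fun a => by
    rcases eq_or_ne a 0 with rfl | ha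
    · simp
    · exact (AbsoluteValue.not_isNontrivial_apply hv ha).le
  have h2 : ∀ y : K', w y ≤ Module.finrank K K' := by
    intro y
    by_contra hlt
    push Not at hlt
    have hi : IsIntegral K y := Algebra.IsIntegral.isIntegral y
    have hd := minpoly.natDegree_le (A := K) y
    have hd0 := minpoly.natDegree_pos hi
    obtain ⟨d, hd'⟩ : ∃ d, (minpoly K y).natDegree = d + 1 := ⟨_, (Nat.succ_pred_eq_of_pos hd0).symm⟩
    have h3 := minpoly.aeval K y
    rw [Polynomial.aeval_eq_sum_range, hd', Finset.sum_range_succ, ← hd',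
      (minpoly.monic hi).coeff_natDegree, one_smul, hd'] at h3
    have hy1 : 1 ≤ w y := by
      have : (1 : ℝ) ≤ Module.finrank K K' := by exact_mod_cast (hd0.trans_le hd)
      linarith
    have h4 : w y ^ (d + 1) ≤ (d + 1) * w y ^ d := by
      rw [← map_pow, eq_neg_of_add_eq_zero_right h3, AbsoluteValue.map_neg]
      refine (w.sum_le _ _).trans ?_
      have : ∀ i ∈ Finset.range (d + 1), w ((minpoly K y).coeff i • y ^ i) ≤ w y ^ d := by
        intro i hi
        rw [Algebra.smul_def, map_mul, map_pow]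
        refine (mul_le_of_le_one_left (by positivity) (h1 _)).trans ?_
        exact pow_le_pow_right₀ hy1 (Nat.lt_succ_iff.1 (Finset.mem_range.1 hi))
      refine (Finset.sum_le_sum this).trans ?_
      simp
    rw [pow_succ'] at h4
    have h5 := le_of_mul_le_mul_right h4 (by positivity)
    have : ((d + 1 : ℕ) : ℝ) ≤ Module.finrank K K' := by exact_mod_cast (hd' ▸ hd)
    push_cast at this
    linarith
  obtain ⟨y, hy⟩ := hw.exists_abv_gt_one
  obtain ⟨n, hn⟩ := pow_unbounded_of_one_lt (Module.finrank K K' : ℝ) hy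
  exact absurd (h2 (y ^ n)) (by rw [map_pow]; exact not_le.2 hn)

theorem ultra_completion {K : Type u} [Field K] (p : ℕ) [Fact p.Prime] [CharP K p]
    (v : AbsoluteValue K ℝ) : IsUltrametricDist v.Completion := by
  refine IsUltrametricDist.isUltrametricDist_of_forall_norm_natCast_le_one fun n => ?_
  rw [← map_natCast (algebraMap K v.Completion), ShaFF.norm_algebraMap_completion]
  have h1 : (n : K) ^ p = n := map_natCast (frobenius K p) n
  have h2 := congrArg v h1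
  rw [map_pow] at h2
  by_contra hlt
  push Not at hlt
  have := pow_lt_pow_right₀ hlt (Fact.out : p.Prime).one_lt
  rw [pow_one, h2] at this
  exact lt_irrefl _ this

variable {R : Type u} [Field R] {W : WeierstrassCurve R}

section single

variable {K Ω : Type u} [Field K] [Field Ω] [Algebra R K] [Algebra K Ω] [Algebra R Ω]
  [IsScalarTower R K Ω] [DecidableEq Ω] [IsGalois K Ω]

omit [DecidableEq Ω] in
theorem exists_compat (L : Type u) [Field L] [Algebra K L] [Algebra R L] [IsScalarTower R K L] :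
    ∃ ι : Ω →ₐ[R] SeparableClosure L,
      ∀ x : K, ι (algebraMap K Ω x) = algebraMap L (SeparableClosure L) (algebraMap K L x) := by
  let κ : Ω →ₐ[K] SeparableClosure L := IsSepClosed.lift
  have : IsScalarTower R K (SeparableClosure L) := IsScalarTower.of_algebraMap_eq fun x => by
    rw [IsScalarTower.algebraMap_apply K L, ← IsScalarTower.algebraMap_apply R K L,
      ← IsScalarTower.algebraMap_apply]
  exact ⟨κ.restrictScalars R, fun x => κ.commutes x⟩

theorem SplitsOver.via {L : Type u} [Field L] [Algebra K L] [Algebra R L]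
    {c : (Ω ≃ₐ[K] Ω) → Pts W Ω} (hc : ∀ σ τ, c (σ * τ) = c σ + act W σ (c τ))
    (h : SplitsOver W L c) [DecidableEq (SeparableClosure L)] (ι : Ω →ₐ[R] SeparableClosure L)
    (hι : ∀ x : K, ι (algebraMap K Ω x) = algebraMap L (SeparableClosure L) (algebraMap K L x)) :
    SplitsVia W L (SeparableClosure L) ι c := by
  obtain ⟨ι1, h1, hs⟩ := h
  obtain ⟨P, hP⟩ := @transport _ _ _ _ _ _ _ _ _ _ _ _ _ _ _ L (SeparableClosure L) _ _ _ _ _ _
    (Classical.decEq _) _ _ _ _ _ _ _ _ _ c hc ι1 (algebraMap K L) h1 hs (algebraMap L _) ι hι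
  exact ⟨P, fun τ σ h => hP τ σ τ.commutes h⟩

theorem InSha.sub {f g : (Ω ≃ₐ[K] Ω) → Pts W Ω} (hf : InSha W f) (hg : InSha W g) :
    InSha W (f - g) := by
  refine ⟨hf.1.sub hg.1, fun v hv => ?_⟩
  let _ := Classical.decEq (SeparableClosure v.Completion)
  obtain ⟨ι, hι, P, hP⟩ := hf.2 v hv
  obtain ⟨Q, hQ⟩ := (hg.2 v hv).via hg.1.2 ι hι
  refine ⟨ι, hι, P - Q, fun τ σ h => ?_⟩
  rw [Pi.sub_apply, map_sub, hP τ σ h, hQ τ σ h, map_sub]
  abel

omit [IsGalois K Ω] in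
theorem InSha.nsmul {f : (Ω ≃ₐ[K] Ω) → Pts W Ω} (hf : InSha W f) (n : ℕ) : InSha W (n • f) := by
  refine ⟨hf.1.nsmul n, fun v hv => ?_⟩
  let _ := Classical.decEq (SeparableClosure v.Completion)
  obtain ⟨ι, hι, P, hP⟩ := hf.2 v hv
  refine ⟨ι, hι, n • P, fun τ σ h => ?_⟩
  rw [Pi.smul_apply, map_nsmul, hP τ σ h, map_nsmul, smul_sub]

theorem InSha.sub_cob {f g : (Ω ≃ₐ[K] Ω) → Pts W Ω} (hf : InSha W f) (hg : IsCoboundary W g) :
    InSha W (f - g) := by
  obtain ⟨Q, hQ⟩ := hg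
  have : g = fun σ => act W σ Q - Q := funext hQ
  refine ⟨hf.1.sub (this ▸ cob_cocycle Q), fun v hv => ?_⟩
  let _ := Classical.decEq (SeparableClosure v.Completion)
  obtain ⟨ι, hι, P, hP⟩ := hf.2 v hv
  refine ⟨ι, hι, P - Point.map (W' := W.toAffine) ι Q, fun τ σ h => ?_⟩
  rw [Pi.sub_apply, map_sub, hP τ σ h, hQ, map_sub, map_sub, map_act ι h]
  abel

end single

variable {K K' Ω : Type u} [Field K] [Field K'] [Field Ω] [Algebra K K']
  [Algebra K Ω] [Algebra K' Ω] [IsScalarTower K K' Ω] [Algebra R K] [Algebra R K'] [Algebra R Ω]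
  [IsScalarTower R K Ω] [IsScalarTower R K' Ω] [DecidableEq Ω] [IsGalois K Ω]
  [FiniteDimensional K K']

theorem InSha.res {c : (Ω ≃ₐ[K] Ω) → Pts W Ω} (hc : InSha W c) : InSha W (res K' c) := by
  have : IsGalois K' Ω := IsGalois.tower_top_of_isGalois K K' Ω
  refine ⟨hc.1.res, fun w hw => ?_⟩
  let _ := Classical.decEq (SeparableClosure w.Completion)
  let v := w.comp (algebraMap K K').injective
  let _ := Classical.decEq (SeparableClosure v.Completion)
  obtain ⟨ι1, h1, hs⟩ := hc.2 v (nontrivial_comp w hw)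
  obtain ⟨ι2, h2⟩ := exists_compat (R := R) (K := K') (Ω := Ω) w.Completion
  obtain ⟨e, he⟩ := exists_ext v ((algebraMap K' w.Completion).comp (algebraMap K K'))
    fun x => ShaFF.norm_algebraMap_completion w _
  obtain ⟨P, hP⟩ := transport (L2 := w.Completion) hc.1.2 ι1 _ h1 hs
    ((algebraMap w.Completion _).comp e) ι2 fun x => by
      rw [IsScalarTower.algebraMap_apply K K' Ω, h2, RingHom.comp_apply, he]
      rfl
  exact ⟨ι2, h2, P, fun τ σ h => hP τ _ (fun y => τ.commutes _) h⟩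

omit [Algebra R K] [IsScalarTower R K Ω] in
theorem loc_split {f : (Ω ≃ₐ[K'] Ω) → Pts W Ω} (hf : InSha W f) {L Λ : Type u}
    [NontriviallyNormedField L] [CompleteSpace L] [IsUltrametricDist L] [Algebra K L]
    [Algebra R L] [Field Λ] [Algebra L Λ] [Algebra R Λ] [IsScalarTower R L Λ] [DecidableEq Λ]
    [IsSepClosure L Λ] (hv : ∃ a : K, a ≠ 0 ∧ ‖algebraMap K L a‖ ≠ 1) (ι : Ω →ₐ[R] Λ)
    (hι : ∀ x : K, ι (algebraMap K Ω x) = algebraMap L Λ (algebraMap K L x)) :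
    ∃ P : Pts W Λ, ∀ (τ : Λ ≃ₐ[L] Λ) (σ : Ω ≃ₐ[K'] Ω), (∀ x, ι (σ x) = τ (ι x)) →
        Point.map (W' := W.toAffine) ι (f σ) = act W τ P - P := by
  have : IsGalois K' Ω := IsGalois.tower_top_of_isGalois K K' Ω
  have : IsSepClosed Λ := IsSepClosure.sep_closed L
  obtain ⟨B, hB⟩ : (⊤ : Submodule K K').FG := Module.finite_def.1 inferInstance
  let T : Finset Λ := B.image fun b => ι (algebraMap K' Ω b)
  let M := IntermediateField.adjoin L (T : Set Λ)
  have : FiniteDimensional L M :=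
    IntermediateField.finiteDimensional_adjoin fun x _ => Algebra.IsIntegral.isIntegral x
  have hmem : ∀ x : K', ι (algebraMap K' Ω x) ∈ M := by
    intro x
    have hx : x ∈ Submodule.span K (B : Set K') := by rw [hB]; trivial
    induction hx using Submodule.span_induction with
    | mem y hy => exact IntermediateField.subset_adjoin _ _ (Finset.mem_image_of_mem _ hy)
    | zero => simp
    | add y z _ _ ihy ihz => rw [map_add, map_add]; exact add_mem ihy ihz
    | smul a y _ ih =>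
      rw [Algebra.smul_def, map_mul, map_mul, ← IsScalarTower.algebraMap_apply, hι]
      exact mul_mem (M.algebraMap_mem _) ih
  let j : K' →+* M := (ι.toRingHom.comp (algebraMap K' Ω)).codRestrict M hmem
  let _ : NormedField M := spectralNorm.normedField L M
  have : CompleteSpace M := spectralNorm.completeSpace L M
  let w : AbsoluteValue K' ℝ := (NormedField.toAbsoluteValue M).comp j.injective
  have hw : w.IsNontrivial := by
    obtain ⟨a, ha, ha1⟩ := hv
    refine ⟨algebraMap K K' a, by simpa using ha, ?_⟩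
    have e1 : j (algebraMap K K' a) = algebraMap L M (algebraMap K L a) := by
      apply Subtype.ext
      change ι _ = _
      rw [← IsScalarTower.algebraMap_apply, hι]
      rfl
    change spectralNorm L M (j (algebraMap K K' a)) ≠ 1
    rwa [e1, spectralNorm_extends]
  obtain ⟨e, he⟩ := exists_ext w j fun x => rfl
  let _ := Classical.decEq (SeparableClosure w.Completion)
  obtain ⟨ι1, h1, hs⟩ := hf.2 w hw
  obtain ⟨P, hP⟩ := transport (L2 := L) hf.1.2 ι1 _ h1 hs (M.val.toRingHom.comp e) ι fun x => by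
    rw [RingHom.comp_apply, he]
    rfl
  refine ⟨P, fun τ σ h => hP τ σ (fun y => ?_) h⟩
  have key : ∀ z ∈ M, τ z = z := by
    intro z hz
    induction hz using IntermediateField.adjoin_induction with
    | mem y hy =>
      obtain ⟨b, -, rfl⟩ := Finset.mem_image.1 hy
      rw [← h, σ.commutes]
    | algebraMap y => exact τ.commutes y
    | add y z _ _ ihy ihz => rw [map_add, ihy, ihz]
    | inv y _ ih => rw [map_inv₀, ih]
    | mul y z _ _ ihy ihz => rw [map_mul, ihy, ihz]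
  exact key _ (e y).2

theorem cores_split {f : (Ω ≃ₐ[K'] Ω) → Pts W Ω} (hf : InSha W f) {L Λ : Type u}
    [NontriviallyNormedField L] [CompleteSpace L] [IsUltrametricDist L] [Algebra K L]
    [Algebra R L] [Field Λ] [Algebra L Λ] [Algebra R Λ] [IsScalarTower R L Λ] [DecidableEq Λ]
    [IsSepClosure L Λ] (hv : ∃ a : K, a ≠ 0 ∧ ‖algebraMap K L a‖ ≠ 1) (ι : Ω →ₐ[R] Λ)
    (hι : ∀ x : K, ι (algebraMap K Ω x) = algebraMap L Λ (algebraMap K L x)) :
    SplitsVia W L Λ ι (cores K W f) := by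
  let Γ : Subgroup ((Λ ≃ₐ[L] Λ) × (Ω ≃ₐ[K] Ω)) :=
    { carrier := {γ | ∀ x, ι (γ.2 x) = γ.1 (ι x)}
      mul_mem' := fun {a b} ha hb x => by
        change ι (a.2 (b.2 x)) = a.1 (b.1 (ι x))
        rw [ha, hb]
      one_mem' := fun x => rfl
      inv_mem' := fun {a} ha x => by
        change ι (a.2.symm x) = a.1.symm (ι x)
        rw [AlgEquiv.eq_symm_apply, ← ha, AlgEquiv.apply_symm_apply] }
  let _ : MulAction Γ (Xs K K' Ω) := MulAction.compHom _ ((MonoidHom.snd _ _).comp Γ.subtype)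
  obtain ⟨Φ, hΦ⟩ := shapiro (G := Γ) (X := Xs K K' Ω) (ρ := fun γ => act W γ.1.1)
    (fun σ τ a => act_mul _ _ a)
    (fun γ x => Point.map (W' := W.toAffine) ι
      (Sh (act W) (fun x : Xs K K' Ω => x.out) (ext0 K f) γ.1.2 x))
    (fun σ τ x => by
      have := sh_mul act_mul out_smul (ext0_mul (K := K) hf.1.2) σ.1.2 τ.1.2 x
      change Point.map (W' := W.toAffine) ι (Sh _ _ _ (σ.1.2 * τ.1.2) x) = _
      rw [this, map_add, map_act ι σ.2]
      rfl)
    (fun x => by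
      let ι' : Ω →ₐ[R] Λ := ι.comp (x.out.toAlgHom.restrictScalars R)
      obtain ⟨P, hP⟩ := loc_split hf hv ι' fun y => by
        rw [← hι]
        exact congrArg ι (x.out.commutes y)
      refine ⟨P, fun γ hγ => ?_⟩
      have h1 : γ.1.2⁻¹ • x = x := by
        rw [inv_smul_eq_iff]; exact hγ.symm
      have h2 := smul_x0_iff.1 (sh_stab out_smul γ.1.2 x)
      rw [Sh, ext0_of_mem _ h2, map_act_eq ι ι' fun _ => rfl]
      refine hP _ _ fun z => ?_
      change ι (x.out (((x.out)⁻¹ * γ.1.2 * (γ.1.2⁻¹ • x).out) z)) = γ.1.1 (ι (x.out z))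
      rw [h1, ← γ.2]
      simp [AlgEquiv.mul_apply])
  refine ⟨∑ x, Φ x, fun τ σ h => ?_⟩
  have := fun x => hΦ ⟨(τ, σ), h⟩ x
  simp only at this
  rw [ShaAsc.cores, cor, map_sum, map_sum, Finset.sum_congr rfl fun x _ => this x, Finset.sum_sub_distrib]
  congr 1
  exact sum_smul_inv (⟨(τ, σ), h⟩ : Γ) fun x => act W τ (Φ x)

theorem InSha.cores (p : ℕ) [Fact p.Prime] [CharP K p] {f : (Ω ≃ₐ[K'] Ω) → Pts W Ω}
    (hf : InSha W f) : InSha W (cores K W f) := by
  refine ⟨hf.1.cores, fun v hv => ?_⟩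
  let _ := Classical.decEq (SeparableClosure v.Completion)
  obtain ⟨ι, hι⟩ := exists_compat (R := R) (K := K) (Ω := Ω) v.Completion
  obtain ⟨a, ha, ha1⟩ := hv
  rw [← ShaFF.norm_algebraMap_completion] at ha1
  let _ : NontriviallyNormedField v.Completion := NontriviallyNormedField.ofNormNeOne
    ⟨algebraMap K _ a, by simpa using ha, ha1⟩
  have : IsUltrametricDist v.Completion := ultra_completion p v
  exact ⟨ι, hι, cores_split hf ⟨a, ha, ha1⟩ ι hι⟩

end Pool.Agent.ShaAsc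
end
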