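import Pool.Agent.Work.MP_60d5ce_nt.Asc.Poly

/-!
# Non-vacuity: pull-backs `u = g(v)` in which the bad primes stay prime
-/

namespace Pool.Agent.ShaAsc

open Polynomial IntermediateField

universe u

variable {F : Type u} [Field F]

theorem dvd_comp (g b : F[X]) (hb0 : b ≠ 0)
    (hb : ∀ P : F[X], Irreducible P → P ∣ b → Irreducible (P.comp g)) (x : F[X])
    (hx : x ∣ b.comp g) : ∃ q : F[X], x = q.comp g := by
  induction b using UniqueFactorizationMonoid.induction_on_prime generalizing x with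
  | h₁ => exact absurd rfl hb0
  | h₂ b hu =>
    obtain ⟨c, hc, rfl⟩ := Polynomial.isUnit_iff.1 hu
    rw [C_comp] at hx
    obtain ⟨d, -, rfl⟩ := Polynomial.isUnit_iff.1 (isUnit_of_dvd_unit hx hu)
    exact ⟨C d, by simp⟩
  | h₃ b P hb' hP ih =>
    rw [mul_comp] at hx
    have hP' := (hb P hP.irreducible (dvd_mul_right _ _)).prime
    have ih' := ih hb' fun Q hQ hd => hb Q hQ (hd.mul_left _)
    rcases hP'.left_dvd_or_dvd_right_of_dvd_mul hx with ⟨x', rfl⟩ | h
    · obtain ⟨q, rfl⟩ := ih' x' ((mul_dvd_mul_iff_left hP'.ne_zero).1 hx)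
      exact ⟨P * q, by rw [mul_comp]⟩
    · exact ih' x h

theorem comp_mem (g q : F[X]) : algebraMap F[X] (RatFunc F) (q.comp g) ∈
    F⟮algebraMap F[X] (RatFunc F) g⟯ := by
  induction q using Polynomial.induction_on' with
  | add p q hp hq => rw [add_comp, map_add]; exact add_mem hp hq
  | monomial n a =>
    rw [monomial_comp, map_mul, map_pow]
    exact mul_mem (IntermediateField.algebraMap_mem _ a) (pow_mem (mem_adjoin_simple_self F _) n)

theorem redei_comp (g b A : F[X]) (hb0 : b ≠ 0)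
    (hb : ∀ P : F[X], Irreducible P → P ∣ b → Irreducible (P.comp g)) :
    Redei F⟮algebraMap F[X] (RatFunc F) g⟯ A (b.comp g) := by
  intro x hx hd _
  obtain ⟨q, rfl⟩ := dvd_comp g b hb0 hb x hd
  refine ⟨⟨_, comp_mem g q⟩, fun H => hx.ne_zero ?_, ⟨_, rfl⟩⟩
  exact IsFractionRing.injective F[X] (RatFunc F) ((congrArg Subtype.val H).trans (map_zero _).symm)

theorem finrank_comp (g : F[X]) :
    Module.finrank F⟮algebraMap F[X] (RatFunc F) g⟯ (RatFunc F) = g.natDegree := by
  rw [RatFunc.finrank_eq_max_natDegree]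
  simp

theorem isSeparable_of_finrank {K L : Type u} [Field K] [Field L] [Algebra K L]
    (h : (Module.finrank K L : K) ≠ 0) : Algebra.IsSeparable K L := by
  have : FiniteDimensional K L := Module.finite_of_finrank_pos (Nat.pos_of_ne_zero fun H => h (by
    rw [H, Nat.cast_zero]))
  refine ⟨fun x => ?_⟩
  have hi : IsIntegral K x := Algebra.IsIntegral.isIntegral x
  refine (separable_iff_derivative_ne_zero (minpoly.irreducible hi)).2 fun H => h ?_
  obtain ⟨k, hk⟩ := minpoly.degree_dvd hi
  obtain ⟨d, hd⟩ : ∃ d, (minpoly K x).natDegree = d + 1 :=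
    ⟨_, (Nat.succ_pred_eq_of_pos (minpoly.natDegree_pos hi)).symm⟩
  have := congrArg (coeff · d) H
  simp only [coeff_derivative, ← hd, (minpoly.monic hi).coeff_natDegree, one_mul, coeff_zero] at this
  rw [hk, hd]
  push_cast
  rw [this, zero_mul]

end Pool.Agent.ShaAsc
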