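import Pool.Agent.Work.MP_60d5ce_nt.Asc.Loc

/-!
# Descent by 2-isogeny on `y^2 = x (x^2 + a x + b)`: local step
-/

namespace Pool.Agent.ShaAsc

open WeierstrassCurve WeierstrassCurve.Affine ShaFF

universe u

/-- The 2-covering `x Z^2 = x^2 U^4 + a x U^2 V^2 + b V^4` has a point. -/
def Tors {L : Type u} [Field L] (a b x : L) : Prop :=
  ∃ U V Z : L, (U ≠ 0 ∨ V ≠ 0) ∧ x * Z ^ 2 = x ^ 2 * U ^ 4 + a * x * U ^ 2 * V ^ 2 + b * V ^ 4

section curve

variable {L : Type u} [Field L] {V : Affine L} {e1 e2 e3 : L}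

/-- `y / x` -/
noncomputable def rho : V.Point → L
  | .zero => 0
  | .some x y _ => y / x

/-- `x - b / x` -/
noncomputable def del (V : Affine L) : V.Point → L
  | .zero => 0
  | .some x _ _ => x - V.a₄ / x

theorem ns_T (h : Spl V e1 e2 e3) : V.Nonsingular e1 0 := by
  rw [nonsingular_iff']
  refine ⟨(h.equation_iff _ _).2 (by ring), Or.inl ?_⟩
  rw [h.a1, h.a2, h.a4]
  intro H
  apply mul_ne_zero (sub_ne_zero.2 h.n12) (sub_ne_zero.2 h.n13)
  linear_combination -H

variable [DecidableEq L]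

theorem exists_S [IsSepClosed L] (h : Spl V e1 e2 e3) : ∃ S : V.Point, (S + S) + (S + S) ≠ 0 := by
  obtain ⟨Q, hQ⟩ := h.exists_half (Point.some _ _ (ns_T h))
  obtain ⟨S, hS⟩ := h.exists_half Q
  exact ⟨S, by rw [hS, hQ]; exact Point.some_ne_zero _⟩

theorem chi_add' [IsSepClosed L] (h : Spl V e1 e2 e3) {T T' : V.Point} (hT : T + T = 0)
    (hT' : T' + T' = 0) : chi e1 (T + T') = chi e1 T * chi e1 T' := by
  obtain ⟨S, hS⟩ := exists_S h
  exact h.chi_add hS hT hT'

theorem eq_T (h : Spl V e1 e2 e3) {T : V.Point} (hT : T + T = 0) (h1 : chi e1 T = 1) :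
    T = 0 ∨ T = Point.some _ _ (ns_T h) := by
  have hm : (-1 : L) ≠ 1 := by
    intro H
    apply h.two
    linear_combination -H
  rcases h.two_torsion hT with rfl | ⟨x, hn, rfl, -⟩
  · exact Or.inl rfl
  · right
    have h0 := Point.some_ne_zero hn
    have : x = e1 := by
      by_contra hc
      simp [chi, xx, h0, hc, hm] at h1
    subst this
    rfl

omit [DecidableEq L] in
theorem chi_T (h : Spl V e1 e2 e3) : chi e2 (Point.some _ _ (ns_T h)) = -1 := by
  simp [chi, xx, Point.some_ne_zero, h.n12]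

theorem rho_del_add (h : Spl V 0 e2 e3) {P : V.Point} (hP : xx P ≠ 0) {T : V.Point}
    (hT : T + T = 0) (h1 : chi 0 T = 1) :
    rho (P + T) = chi e2 T * rho P ∧ del V (P + T) = chi e2 T * del V P := by
  rcases eq_T h hT h1 with rfl | rfl
  · simp [chi_zero]
  rcases P with _ | ⟨x, y, hn⟩
  · exact absurd rfl hP
  simp only [xx] at hP
  have he := h.eq_of_ns hn
  have k1 : V.addX x 0 (V.slope x 0 y 0) = e2 * e3 / x := by
    rw [slope_of_X_ne hP]
    simp only [addX, h.a1, h.a2, sub_zero]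
    field_simp
    linear_combination he
  have k2 : V.addY x 0 y (V.slope x 0 y 0) = -(y * (e2 * e3) / x ^ 2) := by
    rw [addY, h.negY, negAddY, k1, slope_of_X_ne hP]
    field_simp
    ring
  have n2 := h.n12.symm
  have n3 := h.n13.symm
  rw [Point.add_of_X_ne hP, chi_T h]
  simp only [rho, del, k1, k2, h.a4]
  constructor
  · field_simp
  · field_simp
    ring

omit [DecidableEq L] in
theorem del_sq (h : Spl V 0 e2 e3) {P : V.Point} (hP : xx P ≠ 0) :
    del V P ^ 2 = rho P ^ 4 + -2 * V.a₂ * rho P ^ 2 + (V.a₂ ^ 2 - 4 * V.a₄) := by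
  rcases P with _ | ⟨x, y, hn⟩
  · exact absurd rfl hP
  simp only [xx] at hP
  have he := h.eq_of_ns hn
  simp only [rho, del, h.a2, h.a4]
  field_simp
  rw [he]
  ring

end curve

variable {R : Type u} [Field R] {W : WeierstrassCurve R}

section maps

variable {S F M : Type u} [Field S] [Field F] [Field M] [Algebra R S] [Algebra R F] [Algebra R M]
  [Algebra S F] [Algebra S M] [IsScalarTower R S F] [IsScalarTower R S M]
  [DecidableEq F] [DecidableEq M]

theorem rr_map' (φ : F →ₐ[S] M) (e : F) (Q : Pts W F) :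
    rr (W.toAffine.baseChange M) (φ e) (Point.map (W' := W.toAffine) φ Q) =
      φ (rr (W.toAffine.baseChange F) e Q) := by
  rcases Q with _ | ⟨x, y, hn⟩
  · exact (map_zero φ).symm
  · rw [Point.map_some]
    simp only [rr, map_div₀, map_sub, map_add, map_mul, map_pow, map_ofNat, algHom_algebraMap,
      WeierstrassCurve.baseChange, map_a₂, map_a₄]

theorem chi_map' (φ : F →ₐ[S] M) (e : F) (T : Pts W F) :
    chi (φ e) (Point.map (W' := W.toAffine) φ T) = φ (chi e T) := by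
  have h1 : Point.map (W' := W.toAffine) φ T = 0 ↔ T = 0 :=
    map_eq_zero_iff _ (Point.map_injective φ)
  have h2 : φ (xx T) = φ e ↔ xx T = e := φ.injective.eq_iff
  unfold chi
  simp only [xx_map, h1, h2]
  split_ifs <;> simp

theorem rho_map (φ : F →ₐ[S] M) (Q : Pts W F) :
    rho (Point.map (W' := W.toAffine) φ Q) = φ (rho Q) := by
  rcases Q with _ | ⟨x, y, hn⟩
  · exact (map_zero φ).symm
  · rw [Point.map_some]
    simp only [rho, map_div₀]

theorem del_map (φ : F →ₐ[S] M) (Q : Pts W F) :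
    del (W.toAffine.baseChange M) (Point.map (W' := W.toAffine) φ Q) =
      φ (del (W.toAffine.baseChange F) Q) := by
  rcases Q with _ | ⟨x, y, hn⟩
  · exact (map_zero φ).symm
  · rw [Point.map_some]
    simp only [del, map_div₀, map_sub, algHom_algebraMap, WeierstrassCurve.baseChange, map_a₄]

omit [DecidableEq F] [DecidableEq M] in
theorem spl_map (φ : F →ₐ[S] M) {e1 e2 e3 : F} (h : Spl (W.toAffine.baseChange F) e1 e2 e3) :
    Spl (W.toAffine.baseChange M) (φ e1) (φ e2) (φ e3) := by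
  have hi := φ.injective
  have k1 := congrArg φ h.a1
  have k3 := congrArg φ h.a3
  have k2 := congrArg φ h.a2
  have k4 := congrArg φ h.a4
  have k6 := congrArg φ h.a6
  simp only [WeierstrassCurve.baseChange, map_a₁, map_a₂, map_a₃, map_a₄, map_a₆,
    algHom_algebraMap, map_zero, map_neg, map_add, map_mul] at k1 k2 k3 k4 k6
  refine ⟨k1, k3, k2, k4, k6, hi.ne h.n12, hi.ne h.n13, hi.ne h.n23, ?_⟩
  have := hi.ne h.two
  simpa [map_ofNat] using this

omit [DecidableEq F] [DecidableEq M] in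
theorem map_chi (φ : F →ₐ[S] F) (e : F) {V : Affine F} (T : V.Point) :
    φ (chi e T) = chi e T := by
  rcases chi_cases e T with h | h <;> simp [h]

end maps

section loc

variable {K Ω L Λ : Type u} [Field K] [Field Ω] [Algebra R K] [Algebra K Ω] [Algebra R Ω]
  [IsScalarTower R K Ω] [DecidableEq Ω] [Normal K Ω] [Field L] [Field Λ] [Algebra R L]
  [Algebra L Λ] [Algebra R Λ] [IsScalarTower R L Λ] [DecidableEq Λ] [Algebra K L]
  [IsGalois L Λ] [IsSepClosed Λ] {e2 e3 : Ω}

omit [DecidableEq Ω] [DecidableEq Λ] [IsGalois L Λ] [IsSepClosed Λ] [Algebra R K]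
  [IsScalarTower R K Ω] in
theorem exists_res' (ι : Ω →ₐ[R] Λ)
    (hι : ∀ x : K, ι (algebraMap K Ω x) = algebraMap L Λ (algebraMap K L x)) (τ : Λ ≃ₐ[L] Λ) :
    ∃ σ : Ω ≃ₐ[K] Ω, ∀ x, ι (σ x) = τ (ι x) :=
  exists_conj ι ((τ.toAlgHom.restrictScalars R).comp ι) fun x => by
    change _ = τ (ι _)
    rw [hι, τ.commutes]

omit [Algebra R K] [IsScalarTower R K Ω] in
theorem loc1 (h : Spl (W.toAffine.baseChange Ω) 0 e2 e3) {f : (Ω ≃ₐ[K] Ω) → Pts W Ω}
    (h2 : ∀ σ, f σ + f σ = 0) (ι : Ω →ₐ[R] Λ)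
    (hι : ∀ x : K, ι (algebraMap K Ω x) = algebraMap L Λ (algebraMap K L x))
    (hs : SplitsVia W L Λ ι f) {r : Ω} (hr0 : r ≠ 0)
    (hr : ∀ σ : Ω ≃ₐ[K] Ω, σ r = chi 0 (f σ) * r) {x : K} (hx : algebraMap K Ω x = r ^ 2) :
    Tors (algebraMap R L W.a₂) (algebraMap R L W.a₄) (algebraMap K L x) := by
  obtain ⟨P, hP⟩ := hs
  have hL := spl_map ι h
  rw [map_zero] at hL
  have hi := (algebraMap L Λ).injective
  have hr0' : ι r ≠ 0 := by simpa using hr0
  have hx' : algebraMap L Λ (algebraMap K L x) = ι r ^ 2 := by rw [← hι, hx, map_pow]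
  have key : ∀ τ : Λ ≃ₐ[L] Λ, ∃ T : Pts W Λ, T + T = 0 ∧ act W τ P = P + T ∧
      τ (ι r) = chi 0 T * ι r := by
    intro τ
    obtain ⟨σ, hσ⟩ := exists_res' ι hι τ
    refine ⟨Point.map (W' := W.toAffine) ι (f σ), by rw [← map_add, h2, map_zero],
      by rw [hP τ σ hσ]; abel, ?_⟩
    rw [← hσ, hr, map_mul, ← chi_map', map_zero]
  by_cases hP2 : P + P = 0
  · obtain ⟨z, hz⟩ := fixed_mem (K := L) (ι r) fun τ => by
      obtain ⟨T, hT, k1, k2⟩ := key τ
      have k3 := chi_map' (W := W) τ.toAlgHom 0 P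
      rw [map_zero, map_chi] at k3
      change chi 0 (act W τ P) = _ at k3
      rw [k1, chi_add' hL hP2 hT] at k3
      rw [k2, mul_left_cancel₀ (chi_ne_zero 0 P) (k3.trans (mul_one _).symm), one_mul]
    refine ⟨1, 0, z, Or.inl one_ne_zero, hi ?_⟩
    simp only [map_add, map_mul, map_pow, map_one, map_zero, hz, hx']
    ring
  · obtain ⟨U, hU⟩ := fixed_mem (K := L) (rr _ 0 P / ι r) fun τ => by
      obtain ⟨T, hT, k1, k2⟩ := key τ
      have k3 := rr_map' (W := W) τ.toAlgHom 0 P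
      rw [map_zero] at k3
      change rr _ 0 (act W τ P) = τ _ at k3
      rw [map_div₀, ← k3, k1, k2, hL.rr_add hP2 hT, mul_div_mul_left _ _ (chi_ne_zero _ _)]
    have ha : algebraMap R Λ W.a₂ = -(0 + ι e2 + ι e3) := hL.a2
    have hb : algebraMap R Λ W.a₄ = 0 * ι e2 + 0 * ι e3 + ι e2 * ι e3 := hL.a4
    obtain ⟨Z, hZ⟩ := fixed_mem (K := L) (rr _ (ι e2) P * rr _ (ι e3) P / ι r) fun τ => by
      obtain ⟨T, hT, k1, k2⟩ := key τ
      have k3 := rr_map' (W := W) τ.toAlgHom (ι e2) P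
      have k4 := rr_map' (W := W) τ.toAlgHom (ι e3) P
      change rr _ (τ _) (act W τ P) = τ _ at k3 k4
      have a1 := algHom_algebraMap τ.toAlgHom W.a₂
      have b1 := algHom_algebraMap τ.toAlgHom W.a₄
      rw [ha] at a1
      rw [hb] at b1
      change τ _ = _ at a1 b1
      simp only [map_neg, map_add, map_mul, map_zero] at a1 b1
      have k5 : rr _ (τ (ι e2)) (P + T) * rr _ (τ (ι e3)) (P + T) =
          rr _ (ι e2) (P + T) * rr _ (ι e3) (P + T) := by
        have : (τ (ι e2) - ι e2) * (τ (ι e2) - ι e3) = 0 := by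
          linear_combination (-τ (ι e2)) * a1 - b1
        rcases mul_eq_zero.1 this with H | H
        · rw [show τ (ι e3) = ι e3 by linear_combination -a1 - H, sub_eq_zero.1 H]
        · rw [show τ (ι e3) = ι e2 by linear_combination -a1 - H, sub_eq_zero.1 H, mul_comm]
      have k6 := hL.chi_prod hT
      have k7 := chi_sq 0 T
      have k8 := chi_ne_zero 0 T
      rw [map_div₀, map_mul, ← k3, ← k4, k1, k5, k2, hL.swap12.rr_add hP2 hT,
        hL.swap13.rr_add hP2 hT]
      field_simp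
      linear_combination (rr _ (ι e2) P * rr _ (ι e3) P) *
        (chi 0 T * k6 - chi (ι e2) T * chi (ι e3) T * k7)
    refine ⟨U, 1, Z, Or.inr one_ne_zero, hi ?_⟩
    simp only [map_add, map_mul, map_pow, map_one, hU, hZ, hx',
      ← IsScalarTower.algebraMap_apply, ha, hb]
    have m1 := hL.xx_two hP2
    have m2 := hL.swap12.xx_two hP2
    have m3 := hL.swap13.xx_two hP2
    field_simp
    rw [← m1, ← m2, ← m3]
    ring

omit [IsSepClosed Λ] [Algebra R K] [IsScalarTower R K Ω] in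
theorem loc2 (h : Spl (W.toAffine.baseChange Ω) 0 e2 e3) {f : (Ω ≃ₐ[K] Ω) → Pts W Ω}
    (h2 : ∀ σ, f σ + f σ = 0) (h1 : ∀ σ, chi 0 (f σ) = 1) (ι : Ω →ₐ[R] Λ)
    (hι : ∀ x : K, ι (algebraMap K Ω x) = algebraMap L Λ (algebraMap K L x))
    (hs : SplitsVia W L Λ ι f) {r : Ω} (hr0 : r ≠ 0)
    (hr : ∀ σ : Ω ≃ₐ[K] Ω, σ r = chi e2 (f σ) * r) {x : K} (hx : algebraMap K Ω x = r ^ 2) :
    Tors (-2 * algebraMap R L W.a₂) (algebraMap R L W.a₂ ^ 2 - 4 * algebraMap R L W.a₄)
      (algebraMap K L x) := by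
  obtain ⟨P, hP⟩ := hs
  have hL := spl_map ι h
  rw [map_zero] at hL
  have hi := (algebraMap L Λ).injective
  have hr0' : ι r ≠ 0 := by simpa using hr0
  have hx' : algebraMap L Λ (algebraMap K L x) = ι r ^ 2 := by rw [← hι, hx, map_pow]
  have key : ∀ τ : Λ ≃ₐ[L] Λ, ∃ T : Pts W Λ, T + T = 0 ∧ chi 0 T = 1 ∧ act W τ P = P + T ∧
      τ (ι r) = chi (ι e2) T * ι r := by
    intro τ
    obtain ⟨σ, hσ⟩ := exists_res' ι hι τ
    refine ⟨Point.map (W' := W.toAffine) ι (f σ), by rw [← map_add, h2, map_zero], ?_,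
      by rw [hP τ σ hσ]; abel, ?_⟩
    · have := chi_map' ι 0 (f σ)
      rwa [map_zero, h1, map_one] at this
    · rw [← hσ, hr, map_mul, ← chi_map']
  by_cases hP0 : xx P = 0
  · obtain ⟨z, hz⟩ := fixed_mem (K := L) (ι r) fun τ => by
      obtain ⟨T, -, -, k1, k2⟩ := key τ
      have k3 : act W τ P = P := by
        rcases P with _ | ⟨a, b, hn⟩
        · rfl
        · have := hL.eq_of_ns hn
          simp only [xx] at hP0
          subst hP0
          have hb : b = 0 := by simpa using this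
          subst hb
          simp only [act, Point.map_some, Point.some.injEq]
          exact ⟨map_zero _, map_zero _⟩
      rw [k3, left_eq_add] at k1
      rw [k2, k1, chi_zero, one_mul]
    refine ⟨1, 0, z, Or.inl one_ne_zero, hi ?_⟩
    simp only [map_add, map_mul, map_pow, map_one, map_zero, hz, hx']
    ring
  · obtain ⟨U, hU⟩ := fixed_mem (K := L) (rho P / ι r) fun τ => by
      obtain ⟨T, hT, k0, k1, k2⟩ := key τ
      have k3 := rho_map (W := W) τ.toAlgHom P
      change rho (act W τ P) = τ _ at k3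
      rw [map_div₀, ← k3, k1, k2, (rho_del_add hL hP0 hT k0).1,
        mul_div_mul_left _ _ (chi_ne_zero _ _)]
    obtain ⟨Z, hZ⟩ := fixed_mem (K := L) (del _ P / ι r) fun τ => by
      obtain ⟨T, hT, k0, k1, k2⟩ := key τ
      have k3 := del_map (W := W) τ.toAlgHom P
      change del _ (act W τ P) = τ _ at k3
      rw [map_div₀, ← k3, k1, k2, (rho_del_add hL hP0 hT k0).2,
        mul_div_mul_left _ _ (chi_ne_zero _ _)]
    refine ⟨U, 1, Z, Or.inr one_ne_zero, hi ?_⟩
    simp only [map_add, map_mul, map_sub, map_neg, map_ofNat, map_pow, map_one, hU, hZ, hx',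
      ← IsScalarTower.algebraMap_apply]
    have m := del_sq hL hP0
    change _ = _ + -2 * algebraMap R Λ W.a₂ * _ +
      (algebraMap R Λ W.a₂ ^ 2 - 4 * algebraMap R Λ W.a₄) at m
    field_simp
    linear_combination m

end loc

end Pool.Agent.ShaAsc
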