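import Pool.Agent.Work.MP_60d5ce_nt.Asc.Isog

/-!
# Ascent of the 2-primary Tate-Shafarevich group along odd degree extensions
-/

namespace Pool.Agent.ShaAsc

open WeierstrassCurve WeierstrassCurve.Affine ShaFF

universe u

theorem prod_char' {G X M : Type*} [Group G] [MulAction G X] [Fintype X] [CommMonoid M]
    (ψ : G → M) (hm : ∀ σ τ, ψ (σ * τ) = ψ σ * ψ τ) (h1 : ψ 1 = 1) (s : X → G) (σ : G) :
    ∏ x, ψ ((s x)⁻¹ * σ * s (σ⁻¹ • x)) = ψ σ ^ Fintype.card X := by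
  have := prod_char (MonoidHom.toHomUnits ⟨⟨ψ, h1⟩, hm⟩) s σ
  have h2 := congrArg Units.val this
  rw [Units.coe_prod, Units.val_pow_eq_pow_val] at h2
  exact h2

theorem odd_nsmul {A : Type*} [AddCommGroup A] {n : ℕ} (hn : Odd n) {a : A} (ha : a + a = 0) :
    n • a = a := by
  obtain ⟨k, rfl⟩ := hn
  rw [add_nsmul, one_nsmul, mul_nsmul, two_nsmul, ha, nsmul_zero, zero_add]

/-- `x` lies in the Selmer group cut out by the 2-coverings `Tors`. -/
def InSel {K : Type u} [Field K] (a b x : K) : Prop :=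
  x ≠ 0 ∧ ∀ w : AbsoluteValue K ℝ, w.IsNontrivial →
    Tors (algebraMap K w.Completion a) (algebraMap K w.Completion b) (algebraMap K w.Completion x)

section glob

variable {K Ω : Type u} [Field K] [Field Ω] [Algebra K Ω]

theorem kummer' [IsGalois K Ω] (φ : (Ω ≃ₐ[K] Ω) → Ω) (hc : IsLocallyConstant φ)
    (hv : ∀ σ, φ σ = 1 ∨ φ σ = -1) (hm : ∀ σ τ, φ (σ * τ) = φ σ * φ τ) :
    ∃ (r : Ω) (x : K), r ≠ 0 ∧ x ≠ 0 ∧ algebraMap K Ω x = r ^ 2 ∧ ∀ σ : Ω ≃ₐ[K] Ω, σ r = φ σ * r := by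
  obtain ⟨r, hr0, hr⟩ := kummer φ hc hv hm
  obtain ⟨b, hb⟩ := fixed_mem (K := K) (r ^ 2) (fun σ => by
    rw [map_pow, hr, mul_pow]
    rcases hv σ with h | h <;> simp [h])
  refine ⟨r, b, hr0, ?_, hb, hr⟩
  rintro rfl
  rw [map_zero] at hb
  exact hr0 (pow_eq_zero_iff (two_ne_zero) |>.1 hb.symm)

variable {K' : Type u} [Field K'] [Algebra K K'] [Algebra K' Ω] [IsScalarTower K K' Ω]

/-- a quadratic character of `Gal(Ω/K')` whose Kummer class comes from `K` extends -/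
theorem extend_char {φ : (Ω ≃ₐ[K'] Ω) → Ω} (hv : ∀ σ, φ σ * φ σ = 1) {r : Ω} {x : K'} (hr0 : r ≠ 0)
    (hx : algebraMap K' Ω x = r ^ 2) (hr : ∀ σ : Ω ≃ₐ[K'] Ω, σ r = φ σ * r)
    {c : K} (hc : c ≠ 0) (hs : IsSquare (algebraMap K K' c * x)) :
    ∃ ψ : (Ω ≃ₐ[K] Ω) → Ω, (∀ σ, ψ σ = 1 ∨ ψ σ = -1) ∧ (∀ σ τ, ψ (σ * τ) = ψ σ * ψ τ) ∧ ψ 1 = 1 ∧
      ∀ h : Ω ≃ₐ[K'] Ω, ψ (h.restrictScalars K) = φ h := by
  obtain ⟨k, hk⟩ := hs
  set r0 := algebraMap K' Ω k / r with hr0d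
  have h1 : r0 ^ 2 = algebraMap K Ω c := by
    have := congrArg (algebraMap K' Ω) hk
    rw [map_mul, map_mul, ← IsScalarTower.algebraMap_apply, hx] at this
    rw [hr0d, div_pow, sq (algebraMap K' Ω k), ← this]
    field_simp
  have h0 : r0 ≠ 0 := by
    intro H
    rw [H] at h1
    exact hc (by simpa using h1.symm)
  have h2 : ∀ σ : Ω ≃ₐ[K] Ω, σ r0 / r0 = 1 ∨ σ r0 / r0 = -1 := by
    intro σ
    have : σ r0 ^ 2 = r0 ^ 2 := by rw [← map_pow, h1, σ.commutes]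
    rcases sq_eq_sq_iff_eq_or_eq_neg.1 this with h | h
    · left; rw [h, div_self h0]
    · right; rw [h, neg_div, div_self h0]
  refine ⟨fun σ => σ r0 / r0, h2, fun σ τ => ?_, by simp [h0], fun h => ?_⟩
  · simp only [AlgEquiv.mul_apply]
    rcases h2 τ with h | h
    · rw [h, (div_eq_one_iff_eq h0).1 h, mul_one]
    · rw [h, (div_eq_iff h0).1 h]
      simp [neg_div]
  · change h r0 / r0 = φ h
    have h3 : φ h ≠ 0 := left_ne_zero_of_mul_eq_one (hv h)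
    rw [div_eq_iff h0, hr0d, map_div₀, h.commutes, hr]
    field_simp
    linear_combination (-algebraMap K' Ω k) * hv h

end glob

variable {K K' Ω : Type u} [Field K] [Field K'] [Field Ω] [Algebra K K']
  [Algebra K Ω] [Algebra K' Ω] [IsScalarTower K K' Ω] [DecidableEq Ω] [IsGalois K Ω]
  [FiniteDimensional K K'] [IsSepClosed Ω] {W : WeierstrassCurve K}

omit [DecidableEq Ω] [IsGalois K Ω] in
theorem exists_spl (h1 : W.a₁ = 0) (h3 : W.a₃ = 0) (h6 : W.a₆ = 0) (hb : W.a₄ ≠ 0)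
    (hd : W.a₂ ^ 2 - 4 * W.a₄ ≠ 0) (h2 : (2 : K) ≠ 0) :
    ∃ e2 e3 : Ω, Spl (W.toAffine.baseChange Ω) 0 e2 e3 := by
  have hi := (algebraMap K Ω).injective
  have h2' : (2 : Ω) ≠ 0 := by simpa [map_ofNat] using hi.ne h2
  have : NeZero (2 : Ω) := ⟨h2'⟩
  obtain ⟨s, hs⟩ := IsSepClosed.exists_eq_mul_self (algebraMap K Ω (W.a₂ ^ 2 - 4 * W.a₄))
  have hs0 : s ≠ 0 := by
    rintro rfl
    exact hd (hi (by rw [hs, map_zero, mul_zero]))
  simp only [map_sub, map_mul, map_pow, map_ofNat] at hs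
  have hb' : algebraMap K Ω W.a₄ ≠ 0 := by simpa using hb
  have hp : (-algebraMap K Ω W.a₂ + s) / 2 * ((-algebraMap K Ω W.a₂ - s) / 2) =
      algebraMap K Ω W.a₄ := by
    field_simp
    linear_combination hs
  refine ⟨(-algebraMap K Ω W.a₂ + s) / 2, (-algebraMap K Ω W.a₂ - s) / 2, ?_, ?_, ?_, ?_, ?_,
    ?_, ?_, ?_, h2'⟩
  · simp [WeierstrassCurve.baseChange, h1]
  · simp [WeierstrassCurve.baseChange, h3]
  · simp only [WeierstrassCurve.baseChange, map_a₂]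
    field_simp
    ring
  · simp only [WeierstrassCurve.baseChange, map_a₄]
    rw [hp]; ring
  · simp [WeierstrassCurve.baseChange, h6]
  · intro H
    rw [← H, zero_mul] at hp
    exact hb' hp.symm
  · intro H
    rw [← H, mul_zero] at hp
    exact hb' hp.symm
  · intro H
    apply hs0
    field_simp at H
    apply mul_left_cancel₀ h2'
    linear_combination H

theorem rel_two_torsion {e2 e3 : Ω} (h : Spl (W.toAffine.baseChange Ω) 0 e2 e3)
    (hodd : Odd (Module.finrank K K'))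
    (H1 : ∀ x : K', InSel (algebraMap K K' W.a₂) (algebraMap K K' W.a₄) x →
      ∃ c : K, c ≠ 0 ∧ IsSquare (algebraMap K K' c * x))
    (H2 : ∀ x : K', InSel (-2 * algebraMap K K' W.a₂)
      (algebraMap K K' W.a₂ ^ 2 - 4 * algebraMap K K' W.a₄) x →
      ∃ c : K, c ≠ 0 ∧ IsSquare (algebraMap K K' c * x))
    {y : (Ω ≃ₐ[K'] Ω) → Pts W Ω} (hy : InSha W y) (hy2 : IsCoboundary W (y + y))
    (hc : IsCoboundary W (cores K W y)) : IsCoboundary W y := by
  classical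
  have : IsGalois K' Ω := IsGalois.tower_top_of_isGalois K K' Ω
  obtain ⟨P0, hP0⟩ := hy2
  obtain ⟨Q0, hQ0⟩ := h.exists_half P0
  have hq : IsCoboundary W fun σ : Ω ≃ₐ[K'] Ω => act W σ Q0 - Q0 := ⟨Q0, fun _ => rfl⟩
  set f : (Ω ≃ₐ[K'] Ω) → Pts W Ω := y - fun σ => act W σ Q0 - Q0 with hf
  have hfs : InSha W f := hy.sub_cob hq
  have hf2 : ∀ σ, f σ + f σ = 0 := by
    intro σ
    have := hP0 σ
    rw [← hQ0, map_add] at this
    simp only [Pi.add_apply] at this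
    simp only [hf, Pi.sub_apply]
    rw [show y σ - (act W σ Q0 - Q0) + (y σ - (act W σ Q0 - Q0)) =
      (y σ + y σ) - (act W σ Q0 + act W σ Q0 - (Q0 + Q0)) by abel, this, sub_self]
  have hfc : IsCoboundary W (cores K W f) := by
    rw [hf, cores_sub]; exact hc.sub hq.cores
  have chi_act : ∀ (σ : Ω ≃ₐ[K] Ω) (T : Pts W Ω), chi 0 (act W σ T) = chi 0 T := by
    intro σ T
    have := chi_map' (W := W) σ.toAlgHom 0 T
    rwa [map_zero, map_chi] at this
  have act2 : ∀ (σ : Ω ≃ₐ[K] Ω) {T : Pts W Ω}, T + T = 0 → act W σ T + act W σ T = 0 :=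
    fun σ T hT => by rw [← map_add, hT, map_zero]
  have actH : ∀ (σ : Ω ≃ₐ[K'] Ω) (T : Pts W Ω), act W σ T = act W (σ.restrictScalars K) T :=
    fun σ T => act_congr (fun _ => rfl) T
  -- first step
  obtain ⟨r, x, hr0, hx0, hx, hr⟩ := kummer' (fun σ => chi 0 (f σ)) (hfs.1.1.comp (chi 0))
    (fun σ => chi_cases _ _) fun σ τ => by
      rw [hfs.1.2, actH, chi_add' h (hf2 σ) (act2 _ (hf2 τ)), chi_act]
  obtain ⟨c, hc0, hcx⟩ := H1 x ⟨hx0, fun w hw => by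
    let _ := Classical.decEq (SeparableClosure w.Completion)
    obtain ⟨ι, hι, hs⟩ := hfs.2 w hw
    rw [← IsScalarTower.algebraMap_apply, ← IsScalarTower.algebraMap_apply]
    exact loc1 h hf2 ι hι hs hr0 hr hx⟩
  obtain ⟨ψ, ψ1, ψ2, ψ3, ψ4⟩ := extend_char (fun σ => chi_sq 0 (f σ)) hr0 hx hr hc0 hcx
  obtain ⟨S, hS⟩ := exists_S h
  have hcor : ∀ σ, cores K W f σ + cores K W f σ = 0 ∧ chi 0 (cores K W f σ) = ψ σ := by
    intro σ
    have e1 : ∀ x : Xs K K' Ω, ∃ h' : Ω ≃ₐ[K'] Ω,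
        Sh (act W) (fun x : Xs K K' Ω => x.out) (ext0 K f) σ x = act W x.out (f h') ∧
        h'.restrictScalars K = (x.out)⁻¹ * σ * (σ⁻¹ • x).out := fun x =>
      ⟨_, by rw [Sh, ext0_of_mem _ (smul_x0_iff.1 (sh_stab out_smul σ x))], rfl⟩
    choose h' e1 e2 using e1
    obtain ⟨k1, k2⟩ := chi_sum h hS Finset.univ
      (Sh (act W) (fun x : Xs K K' Ω => x.out) (ext0 K f) σ) fun x => by
        rw [e1]; exact act2 _ (hf2 _)
    refine ⟨k1, k2.trans ?_⟩
    rw [Finset.prod_congr rfl fun x _ => by rw [e1, chi_act, ← ψ4, e2],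
      prod_char' ψ ψ2 ψ3, ← Nat.card_eq_fintype_card, card_Xs]
    rcases ψ1 σ with e | e <;> rw [e]
    · exact one_pow _
    · exact hodd.neg_one_pow
  -- second step
  set g : (Ω ≃ₐ[K'] Ω) → Pts W Ω := f - res K' (cores K W f) with hg
  have hgs : InSha W g := hfs.sub_cob hfc.res
  have hg' : ∀ σ, g σ = f σ + cores K W f (σ.restrictScalars K) := fun σ => by
    rw [hg, Pi.sub_apply, res, sub_eq_add_neg, neg_eq_of_add_eq_zero_left (hcor _).1]
  have hg2 : ∀ σ, g σ + g σ = 0 := fun σ => by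
    rw [hg', add_add_add_comm, hf2, (hcor _).1, add_zero]
  have hg1 : ∀ σ, chi 0 (g σ) = 1 := fun σ => by
    rw [hg', chi_add' h (hf2 σ) (hcor _).1, (hcor _).2, ψ4, chi_sq]
  set T : Pts W Ω := Point.some _ _ (ns_T h) with hT
  have hT2 : T + T = 0 := (h.two_ne_zero_iff _).2 rfl
  have actT : ∀ σ : Ω ≃ₐ[K] Ω, act W σ T = T := fun σ => by
    simp only [hT, act, Point.map_some, Point.some.injEq]
    exact ⟨map_zero _, map_zero _⟩
  have actg : ∀ (σ : Ω ≃ₐ[K] Ω) τ, act W σ (g τ) = g τ := fun σ τ => by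
    rcases eq_T h (hg2 τ) (hg1 τ) with e | e <;> rw [e]
    · exact map_zero _
    · exact actT σ
  obtain ⟨r', x', hr0', hx0', hx', hr'⟩ := kummer' (fun σ => chi e2 (g σ)) (hgs.1.1.comp (chi e2))
    (fun σ => chi_cases _ _) fun σ τ => by
      rw [hgs.1.2, actH, actg, chi_add' h.swap12 (hg2 σ) (hg2 τ)]
  obtain ⟨c', hc0', hcx'⟩ := H2 x' ⟨hx0', fun w hw => by
    let _ := Classical.decEq (SeparableClosure w.Completion)
    obtain ⟨ι, hι, hs⟩ := hgs.2 w hw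
    simp only [map_mul, map_sub, map_neg, map_pow, map_ofNat, ← IsScalarTower.algebraMap_apply]
    exact loc2 h hg2 hg1 ι hι hs hr0' hr' hx'⟩
  obtain ⟨θ, θ1, θ2, -, θ4⟩ := extend_char (fun σ => chi_sq e2 (g σ)) hr0' hx' hr' hc0' hcx'
  have hm : (-1 : Ω) ≠ 1 := by
    intro H
    apply h.two
    linear_combination -H
  let g0 : (Ω ≃ₐ[K] Ω) → Pts W Ω := fun σ => if θ σ = 1 then 0 else T
  have g1 : ∀ σ τ, g0 (σ * τ) = g0 σ + act W σ (g0 τ) := by
    intro σ τ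
    simp only [g0, θ2]
    rcases θ1 σ with e | e <;> rcases θ1 τ with e' | e' <;> simp [e, e', hm, actT, hT2]
  have g2 : res K' g0 = g := by
    funext σ
    simp only [res, g0, θ4]
    rcases eq_T h (hg2 σ) (hg1 σ) with e | e <;> rw [e]
    · simp [chi_zero]
    · rw [chi_T h, if_neg hm]
  have g3 : Module.finrank K K' • g0 = g0 := by
    funext σ
    refine odd_nsmul hodd ?_
    simp only [g0]
    split_ifs
    · exact add_zero _
    · exact hT2
  have g4 := cores_res (K' := K') g1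
  rw [g2, g3] at g4
  have g5 : IsCoboundary W (cores K W g) := by
    rw [hg, cores_sub]; exact hfc.sub hfc.res.cores
  have g6 := (g5.sub g4).res (K' := K')
  rw [sub_sub_cancel, g2] at g6
  have g7 := (g6.add hfc.res).add hq
  rwa [hg, sub_add_cancel, hf, sub_add_cancel] at g7

theorem ascent (p : ℕ) [Fact p.Prime] [CharP K p] (h1 : W.a₁ = 0) (h3 : W.a₃ = 0) (h6 : W.a₆ = 0)
    (hb : W.a₄ ≠ 0) (hd : W.a₂ ^ 2 - 4 * W.a₄ ≠ 0) (h2 : (2 : K) ≠ 0)
    (hodd : Odd (Module.finrank K K'))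
    (H1 : ∀ x : K', InSel (algebraMap K K' W.a₂) (algebraMap K K' W.a₄) x →
      ∃ c : K, c ≠ 0 ∧ IsSquare (algebraMap K K' c * x))
    (H2 : ∀ x : K', InSel (-2 * algebraMap K K' W.a₂)
      (algebraMap K K' W.a₂ ^ 2 - 4 * algebraMap K K' W.a₄) x →
      ∃ c : K, c ≠ 0 ∧ IsSquare (algebraMap K K' c * x))
    {c' : (Ω ≃ₐ[K'] Ω) → Pts W Ω} (hc' : InSha W c') (M : ℕ) (hM : IsCoboundary W (2 ^ M • c')) :
    ∃ c : (Ω ≃ₐ[K] Ω) → Pts W Ω, InSha W c ∧ IsCoboundary W (2 ^ M • c) ∧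
      IsCoboundary W (c' - res K' c) := by
  have : IsGalois K' Ω := IsGalois.tower_top_of_isGalois K K' Ω
  obtain ⟨e2, e3, h⟩ := exists_spl (Ω := Ω) h1 h3 h6 hb hd h2
  have key : ∀ (M : ℕ) (y : (Ω ≃ₐ[K'] Ω) → Pts W Ω), InSha W y → IsCoboundary W (cores K W y) →
      IsCoboundary W (2 ^ M • y) → IsCoboundary W y := by
    intro M
    induction M with
    | zero => intro y _ _ h; simpa using h
    | succ M ih =>
      intro y hy hc hM
      refine rel_two_torsion h hodd H1 H2 hy ?_ hc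
      rw [← two_nsmul]
      refine ih _ (hy.nsmul 2) (by rw [cores_nsmul]; exact hc.nsmul 2) ?_
      rwa [← mul_nsmul, ← pow_succ']
  set n := Module.finrank K K' with hn
  have hcc := hc'.cores (K := K) p
  have hM' : IsCoboundary W (2 ^ M • cores K W c') := by
    rw [← cores_nsmul]; exact hM.cores
  have k1 := key M (n • c' - res K' (cores K W c')) ((hc'.nsmul n).sub hcc.res)
    (by
      obtain ⟨P, hP⟩ := cores_res (K' := K') hcc.1.2
      refine ⟨-P, fun σ => ?_⟩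
      rw [cores_sub, cores_nsmul, map_neg, ← neg_sub', ← hP, ← Pi.neg_apply, neg_sub])
    (by
      rw [smul_sub, smul_comm]
      exact (hM.nsmul n).sub hM'.res)
  obtain ⟨m, k, hmk⟩ : ∃ m k : ℕ, m * n = 1 + k * 2 ^ M := by
    have hco : Nat.Coprime n (2 ^ M) := Nat.Coprime.pow_right _ (Nat.coprime_two_right.2 hodd)
    refine ⟨n ^ (Nat.totient (2 ^ M) - 1), ?_⟩
    have e1 := Nat.ModEq.pow_totient hco
    have e2 : 0 < Nat.totient (2 ^ M) := Nat.totient_pos.2 (by positivity)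
    rw [← pow_succ, Nat.sub_add_cancel e2]
    obtain ⟨k, hk⟩ := (Nat.modEq_iff_dvd' (Nat.one_le_pow _ _ hodd.pos)).1 e1.symm
    refine ⟨k, ?_⟩
    have := Nat.one_le_pow (Nat.totient (2 ^ M)) n hodd.pos
    rw [mul_comm k, ← hk]
    omega
  refine ⟨m • cores K W c', hcc.nsmul m, by rw [smul_comm]; exact hM'.nsmul m, ?_⟩
  have k2 := (k1.nsmul m).sub (hM.nsmul k)
  have e : res K' (m • cores K W c') = m • res K' (cores K W c') := rfl
  rw [smul_sub, ← mul_smul, hmk, add_smul, one_smul, mul_smul, ← e] at k2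
  convert k2 using 1
  abel

end Pool.Agent.ShaAsc
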