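import Mathlib

/-!
# A quadratic residue condition for the descent by 2-isogeny over `F(v)`
-/

namespace Pool.Agent.ShaAsc

open Polynomial

universe u

/-- Every squarefree divisor `x` of `B` that satisfies the local descent conditions of
`y^2 = x (x^2 + A x + B)` at the primes `h` dividing `A^2 - 4 B` but not `A` (`x` is a square
modulo `h`, or `h` has even multiplicity and `-2 A x` is a square modulo `h`) comes from the
subfield `K` of `F(v)`, up to squares. -/
def Redei (K : Type u) {F : Type u} [Field K] [Field F] [Algebra K (RatFunc F)] (A B : F[X]) :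
    Prop :=
  ∀ x : F[X], Squarefree x → x ∣ B →
    (∀ h : F[X], Irreducible h → h ∣ A ^ 2 - 4 * B → ¬ h ∣ A →
      (∃ r : F[X], h ∣ x - r ^ 2) ∨
        (Even (multiplicity h (A ^ 2 - 4 * B)) ∧ ∃ r : F[X], h ∣ -2 * A * x - r ^ 2)) →
    ∃ c : K, c ≠ 0 ∧ IsSquare (algebraMap K (RatFunc F) c * algebraMap F[X] (RatFunc F) x)

end Pool.Agent.ShaAsc
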