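import Pool.Agent.Work.MP_60d5ce_nt.Asc.Main
import Pool.Agent.Work.MP_60d5ce_nt.Asc.RDefs
import Pool.Agent.Work.MP_60d5ce_nt.Redei

/-!
# The Selmer conditions over `F(v)` in terms of quadratic residues
-/

namespace Pool.Agent.ShaAsc

open WeierstrassCurve ShaFF Polynomial WithZero

universe u

section val

variable {L : Type u} [Field L] {Γ : Type*} [LinearOrderedCommGroupWithZero Γ] {ν : Valuation L Γ}
  {a b x : L}

theorem tors_unram (h : Tors a b x) (hx : x ≠ 0) (ha : ν a ≤ 1) (hb : ν b = 1) :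
    ∃ k : L, k ≠ 0 ∧ ν x = ν k ^ 2 := by
  obtain ⟨U, V, Z, hUV, he⟩ := h
  have hx' : ν x ≠ 0 := by simpa using hx
  have e1 : ν (x ^ 2 * U ^ 4) = ν (x * U ^ 2) * ν (x * U ^ 2) := by
    rw [← map_mul]; congr 1; ring
  have e2 : ν (a * x * U ^ 2 * V ^ 2) ≤ ν (x * U ^ 2) * ν (V ^ 2) := by
    rw [show a * x * U ^ 2 * V ^ 2 = a * ((x * U ^ 2) * V ^ 2) by ring, map_mul, map_mul]
    exact mul_le_of_le_one_left' ha
  have e3 : ν (b * V ^ 4) = ν (V ^ 2) * ν (V ^ 2) := by
    rw [map_mul, hb, one_mul, ← map_mul]; congr 1; ring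
  have fin : ∀ t : L, ν t ≠ 0 → ν (x * Z ^ 2) = ν t * ν t → ∃ k : L, k ≠ 0 ∧ ν x = ν k ^ 2 := by
    intro t ht h
    have hZ : ν Z ≠ 0 := by
      intro H
      rw [map_mul, map_pow, H] at h
      exact mul_ne_zero ht ht (by simpa using h.symm)
    refine ⟨t / Z, div_ne_zero (by simpa using ht) (by simpa using hZ), ?_⟩
    rw [map_div₀, div_pow, sq (ν t), ← h, map_mul, map_pow]
    field_simp
  rcases lt_trichotomy (ν (V ^ 2)) (ν (x * U ^ 2)) with h | h | h
  · have h0 : 0 < ν (x * U ^ 2) := zero_le.trans_lt h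
    refine fin _ h0.ne' ?_
    rw [he, add_assoc, ← e1]
    refine ν.map_add_eq_of_lt_left (ν.map_add_lt ?_ ?_)
    · rw [e1]; exact e2.trans_lt (mul_lt_mul_of_pos_left h h0)
    · rw [e1, e3]; exact mul_self_lt_mul_self zero_le h
  · have hU : U ≠ 0 := by
      rintro rfl
      rcases hUV with h' | h'
      · exact h' rfl
      · simp [h'] at h
    have hU' : ν U ≠ 0 := by simpa using hU
    have hV : V ≠ 0 := by
      rintro rfl
      exact mul_ne_zero hx' (pow_ne_zero 2 hU') (by simpa using h.symm)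
    refine ⟨V / U, div_ne_zero hV hU, ?_⟩
    rw [map_div₀, div_pow, ← map_pow, h, map_mul, map_pow]
    field_simp
  · have h0 : 0 < ν (V ^ 2) := zero_le.trans_lt h
    refine fin _ h0.ne' ?_
    rw [he, ← e3]
    refine ν.map_add_eq_of_lt_right (ν.map_add_lt ?_ ?_)
    · rw [e1, e3]; exact mul_self_lt_mul_self zero_le h
    · rw [e3]; exact e2.trans_lt (mul_lt_mul_of_pos_right h h0)

theorem tors_mult (h : Tors a b x) (hx : x ≠ 0) (h2 : ν 2 = 1) (ha : ν a = 1)
    (hd : ν (a ^ 2 - 4 * b) < 1) (hd0 : a ^ 2 - 4 * b ≠ 0) :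
    (∃ k, VA ν x (k ^ 2)) ∨
      ((∃ k : L, k ≠ 0 ∧ ν (a ^ 2 - 4 * b) = ν k ^ 2) ∧ ∃ k, VA ν (-2 * a * x) (k ^ 2)) := by
  obtain ⟨U, V, Z, hUV, he⟩ := h
  have h20 : (2 : L) ≠ 0 := by
    intro H
    rw [H] at h2
    simp at h2
  have ha0 : a ≠ 0 := by
    rintro rfl
    simp at ha
  set S := 2 * x * U ^ 2 + a * V ^ 2 with hS
  have e : x * (2 * Z) ^ 2 = S ^ 2 - (a ^ 2 - 4 * b) * V ^ 4 := by
    rw [hS]; linear_combination 4 * he
  rcases lt_or_ge (ν ((a ^ 2 - 4 * b) * V ^ 4)) (ν (S ^ 2)) with h | h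
  · have k : VA ν (S ^ 2) (x * (2 * Z) ^ 2) := by
      unfold VA
      rwa [e, sub_sub_cancel]
    have hZ : 2 * Z ≠ 0 := fun H => k.symm.ne_zero (by rw [H]; simp)
    refine Or.inl ⟨S / (2 * Z), ?_⟩
    have := k.symm.mul_right (c := ((2 * Z) ^ 2)⁻¹) (by simp [hZ])
    have hZ' : Z ≠ 0 := right_ne_zero_of_mul hZ
    convert this using 1
    · field_simp
    · field_simp
  · have hV : V ≠ 0 := by
      rintro rfl
      have hU : U ≠ 0 := hUV.resolve_right (by simp)
      have : S ≠ 0 := by simp [hS, h20, hx, hU]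
      simp [this] at h
    have hV' : 0 < ν (V ^ 2) := by simp [zero_lt_iff, hV]
    have k1 : ν S < ν (V ^ 2) := by
      by_contra hc
      push Not at hc
      have := (mul_self_le_mul_self zero_le hc).trans (by simpa only [sq, map_mul] using h :
        ν S * ν S ≤ ν ((a ^ 2 - 4 * b) * V ^ 4))
      rw [map_mul, show V ^ 4 = V ^ 2 * V ^ 2 by ring, map_mul] at this
      exact absurd this (not_le.2 (mul_lt_of_lt_one_left (mul_pos hV' hV') hd))
    have k2 : VA ν (a * V ^ 2) (-(2 * x * U ^ 2)) := by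
      unfold VA
      rwa [map_mul, ha, one_mul, sub_neg_eq_add, add_comm]
    have hU : U ≠ 0 := fun H => k2.symm.ne_zero (by rw [H]; simp)
    have hU' : ν U ≠ 0 := by simpa using hU
    have hV'' : ν V ≠ 0 := by simpa using hV
    have hd0' : ν (a ^ 2 - 4 * b) ≠ 0 := by simpa using hd0
    refine Or.inr ⟨?_, a * V / U, ?_⟩
    · rcases h.eq_or_lt with h | h
      · have hS0 : S ≠ 0 := by
          intro H
          rw [H] at h
          exact mul_ne_zero hd0' (pow_ne_zero 4 hV'') (by simpa using h.symm)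
        refine ⟨S / V ^ 2, div_ne_zero hS0 (pow_ne_zero 2 hV), ?_⟩
        rw [map_div₀, div_pow, ← map_pow, h, map_mul, map_pow, map_pow]
        field_simp
      · have k3 : ν (x * (2 * Z) ^ 2) = ν ((a ^ 2 - 4 * b) * V ^ 4) := by
          rw [e, ν.map_sub_swap]
          exact ν.map_sub_eq_of_lt_left h
        have k4 := k2.val_eq
        simp only [map_mul, map_pow, Valuation.map_neg, ha, h2, one_mul] at k3 k4
        have hZ : Z ≠ 0 := by
          rintro rfl
          exact mul_ne_zero hd0' (pow_ne_zero 4 hV'') (by simpa using k3.symm)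
        refine ⟨Z / (U * V), div_ne_zero hZ (mul_ne_zero hU hV), ?_⟩
        rw [map_div₀, map_mul, div_pow, eq_div_iff (pow_ne_zero 2 (mul_ne_zero hU' hV''))]
        apply mul_right_cancel₀ (pow_ne_zero 2 hV'')
        calc ν (a ^ 2 - 4 * b) * (ν U * ν V) ^ 2 * ν V ^ 2
            = ν (a ^ 2 - 4 * b) * ν V ^ 4 * ν U ^ 2 := by
              simp only [mul_pow, show (4 : ℕ) = 2 + 2 from rfl, pow_add]; ac_rfl
          _ = ν Z ^ 2 * (ν x * ν U ^ 2) := by rw [← k3, mul_comm (ν x), mul_assoc]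
          _ = _ := by rw [← k4]
    · have := k2.symm.mul_right (c := a / U ^ 2) (by simp [ha0, hU])
      convert this using 1
      · field_simp
      · field_simp

end val

section transfer

variable {K : Type u} [Field K] (ν : Valuation K ℤᵐ⁰)

theorem absOf_eq (a b : K) : absOf ν a = absOf ν b ↔ ν a = ν b := by
  simp only [le_antisymm_iff, ← not_lt, absOf_lt]

variable [IsUltrametricDist (absOf ν).Completion]

theorem val_alg_lt (a b : K) :
    NormedField.valuation (algebraMap K (absOf ν).Completion a) <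
      NormedField.valuation (algebraMap K (absOf ν).Completion b) ↔ ν a < ν b := by
  rw [← absOf_lt, ← norm_algebraMap_completion, ← norm_algebraMap_completion]
  rfl

theorem val_alg_eq (a b : K) :
    NormedField.valuation (algebraMap K (absOf ν).Completion a) =
      NormedField.valuation (algebraMap K (absOf ν).Completion b) ↔ ν a = ν b := by
  simp only [le_antisymm_iff, ← not_lt, val_alg_lt]

theorem val_alg_lt_one {a : K} (h : ν a < 1) :
    NormedField.valuation (algebraMap K (absOf ν).Completion a) < 1 := by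
  simpa only [map_one] using (val_alg_lt ν a 1).2 (by rwa [map_one])

theorem val_alg_eq_one {a : K} (h : ν a = 1) :
    NormedField.valuation (algebraMap K (absOf ν).Completion a) = 1 := by
  simpa only [map_one] using (val_alg_eq ν a 1).2 (by rwa [map_one])

theorem val_alg_le_one {a : K} (h : ν a ≤ 1) :
    NormedField.valuation (algebraMap K (absOf ν).Completion a) ≤ 1 :=
  h.eq_or_lt.elim (fun h => (val_alg_eq_one ν h).le) fun h => (val_alg_lt_one ν h).le

theorem transfer_even {x : K} (h : ∃ k : (absOf ν).Completion, k ≠ 0 ∧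
    NormedField.valuation (algebraMap K (absOf ν).Completion x) = NormedField.valuation k ^ 2) :
    ∃ k : K, ν x = ν k ^ 2 := by
  obtain ⟨k, hk0, hk⟩ := h
  obtain ⟨k', hk'⟩ := (denseRange_completion (absOf ν)).exists_mem_open
    (s := {z | ‖k - z‖ < ‖k‖}) (isOpen_lt (by fun_prop) continuous_const) ⟨k, by simpa using hk0⟩
  have : VA NormedField.valuation k (algebraMap K _ k') := hk'
  rw [this.val_eq, ← map_pow, ← map_pow, val_alg_eq, map_pow] at hk
  exact ⟨k', hk⟩

theorem transfer_sq {x : K} (h : ∃ k : (absOf ν).Completion,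
    VA NormedField.valuation (algebraMap K (absOf ν).Completion x) (k ^ 2)) :
    ∃ k : K, VA ν x (k ^ 2) := by
  obtain ⟨k, hk⟩ := h
  obtain ⟨k', hk'⟩ := (denseRange_completion (absOf ν)).exists_mem_open
    (s := {z | ‖algebraMap K (absOf ν).Completion x - z ^ 2‖ < ‖algebraMap K (absOf ν).Completion x‖})
    (isOpen_lt (by fun_prop) continuous_const) ⟨k, hk⟩
  refine ⟨k', (val_alg_lt ν _ _).1 ?_⟩
  rw [map_sub, map_pow]
  exact hk'

end transfer

theorem InSel.of_mul_sq {K : Type u} [Field K] {a b x k : K} (h : InSel a b (x * k ^ 2)) :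
    InSel a b x := by
  have hk : k ≠ 0 := by
    rintro rfl
    exact h.1 (by simp)
  refine ⟨left_ne_zero_of_mul h.1, fun w hw => ?_⟩
  obtain ⟨U, V, Z, hUV, he⟩ := h.2 w hw
  have hk' : algebraMap K w.Completion k ≠ 0 := by simpa using hk
  refine ⟨U * algebraMap K _ k, V, Z * algebraMap K _ k, hUV.imp_left fun h => mul_ne_zero h hk', ?_⟩
  rw [map_mul, map_pow] at he
  linear_combination he

variable {F : Type u} [Field F]

theorem sel_of_redei (p : ℕ) [Fact p.Prime] [CharP F p] (h2 : (2 : F) ≠ 0) {K : Type u} [Field K]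
    [Algebra K (RatFunc F)] {A B : F[X]} (hD : A ^ 2 - 4 * B ≠ 0) (hR : Redei K A B)
    (x : RatFunc F) (hx : InSel (algebraMap F[X] _ A) (algebraMap F[X] _ B) x) :
    ∃ c : K, c ≠ 0 ∧ IsSquare (algebraMap K (RatFunc F) c * x) := by
  obtain ⟨y, k, hy, hk, rfl⟩ := ratFunc_decomp x hx.1
  have hx' := hx.of_mul_sq
  set ι := algebraMap F[X] (RatFunc F) with hι
  have hi : Function.Injective ι := IsFractionRing.injective F[X] (RatFunc F)
  have hle : ∀ {π : F[X]} (hπ : Irreducible π) (q : F[X]), nu hπ (ι q) ≤ 1 := fun hπ q =>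
    (pl hπ).valuation_le_one q
  have hu : ∀ {π : F[X]}, Irreducible π → ¬ π ∣ 2 := fun hπ hd =>
    hπ.not_isUnit (isUnit_of_dvd_unit hd (isUnit_C.2 h2.isUnit))
  have d1 : y ∣ B := by
    refine sqfree_dvd _ _ hy fun π hπ hd => ?_
    by_contra hn
    have := ultra_completion p (absOf (nu hπ))
    obtain ⟨k', hk'⟩ := transfer_even (nu hπ) (tors_unram (hx'.2 _ (nu_nontrivial hπ))
      (by simpa using hx'.1)
      (val_alg_le_one _ (hle hπ A)) (val_alg_eq_one _ ((nu_eq_one_iff hπ B).2 hn)))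
    exact not_dvd_of_even hπ hy (k := 1) (k' := k') one_ne_zero (by simpa using hk') hd
  obtain ⟨c, hc, s, hs⟩ := hR y hy d1 fun π hπ hd hA => by
    have := ultra_completion p (absOf (nu hπ))
    have hB : ¬ π ∣ B := fun H => hA (hπ.prime.dvd_of_dvd_pow (n := 2) (by
      simpa using hd.add (H.mul_left 4)))
    have hy' : ¬ π ∣ y := fun H => hB (H.trans d1)
    have e : ∀ q : F[X], ¬ π ∣ q → NormedField.valuation
        (algebraMap (RatFunc F) (absOf (nu hπ)).Completion (ι q)) = 1 := fun q hq =>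
      val_alg_eq_one _ ((nu_eq_one_iff hπ q).2 hq)
    have eD : algebraMap (RatFunc F) (absOf (nu hπ)).Completion (ι A) ^ 2 -
        4 * algebraMap (RatFunc F) (absOf (nu hπ)).Completion (ι B) =
        algebraMap (RatFunc F) (absOf (nu hπ)).Completion (ι (A ^ 2 - 4 * B)) := by
      simp only [map_sub, map_mul, map_pow, map_ofNat]
    rcases tors_mult (ν := NormedField.valuation) (hx'.2 _ (nu_nontrivial hπ))
      (by simpa using hx'.1) (by simpa only [map_ofNat] using e 2 (hu hπ)) (e A hA)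
      (by rw [eD]; exact val_alg_lt_one _ ((nu_lt_one_iff hπ _).2 hd))
      (by rw [eD]; simpa only [ne_eq, map_eq_zero, map_eq_zero_iff ι hi] using hD) with H | ⟨H1, H2⟩
    · obtain ⟨k', hk'⟩ := transfer_sq (nu hπ) H
      exact Or.inl (sq_mod hπ hy' hk')
    · rw [eD] at H1
      obtain ⟨k1, hk1⟩ := transfer_even (nu hπ) H1
      obtain ⟨k2, hk2⟩ := transfer_sq (nu hπ) (x := ι (-2 * A * y))
        (by simpa only [map_mul, map_neg, map_ofNat] using H2)
      refine Or.inr ⟨?_, sq_mod hπ (fun H => ?_) hk2⟩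
      · obtain ⟨q, hq, hq'⟩ := (FiniteMultiplicity.of_prime_left hπ.prime hD).exists_eq_pow_mul_and_not_dvd
        rw [hq, map_mul, map_mul, map_pow, map_pow, nu_self, (nu_eq_one_iff hπ q).2 hq', mul_one,
          ← exp_nsmul] at hk1
        have := even_of_exp_eq_sq hk1
        simpa using this
      · rcases hπ.prime.dvd_or_dvd H with H | H
        · rcases hπ.prime.dvd_or_dvd H with H | H
          · exact hu hπ (dvd_neg.1 H)
          · exact hA H
        · exact hy' H
  exact ⟨c, hc, s * k, by rw [← mul_assoc, hs]; ring⟩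

theorem ascent_ratFunc (p : ℕ) [Fact p.Prime] [CharP F p] (hp : p ≠ 2) {K : Type u} [Field K]
    [Algebra K (RatFunc F)] [FiniteDimensional K (RatFunc F)] [Algebra.IsSeparable K (RatFunc F)]
    (hodd : Odd (Module.finrank K (RatFunc F))) (a b : K) (A B : F[X])
    (hA : algebraMap K (RatFunc F) a = algebraMap F[X] (RatFunc F) A)
    (hB : algebraMap K (RatFunc F) b = algebraMap F[X] (RatFunc F) B)
    (hB0 : B ≠ 0) (hD : A ^ 2 - 4 * B ≠ 0) (h1 : Redei K A B)
    (h2 : Redei K (-2 * A) (A ^ 2 - 4 * B)) (E : WeierstrassCurve K) (hE : E = ⟨0, a, 0, b, 0⟩)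
    {Ω : Type u} [Field Ω] [Algebra (RatFunc F) Ω] [Algebra K Ω] [IsScalarTower K (RatFunc F) Ω]
    [IsSepClosure (RatFunc F) Ω] [DecidableEq Ω]
    {c' : (Ω ≃ₐ[RatFunc F] Ω) → Pts E Ω} (hc' : InSha E c') (M : ℕ)
    (hM : IsCoboundary E (2 ^ M • c')) :
    ∃ c : (Ω ≃ₐ[K] Ω) → Pts E Ω, InSha E c ∧ IsCoboundary E (2 ^ M • c) ∧
      IsCoboundary E (c' - res (RatFunc F) c) := by
  subst hE
  have : IsSepClosed Ω := IsSepClosure.sep_closed (RatFunc F)
  have : Algebra.IsSeparable K Ω := Algebra.IsSeparable.trans K (RatFunc F) Ω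
  have : IsSepClosure K Ω := ⟨inferInstance, inferInstance⟩
  have : CharP K p := (Algebra.charP_iff K (RatFunc F) p).2 inferInstance
  have hi : Function.Injective (algebraMap F[X] (RatFunc F)) :=
    IsFractionRing.injective F[X] (RatFunc F)
  have h2' : ∀ (L : Type u) [Field L] [CharP L p], (2 : L) ≠ 0 := by
    intro L _ _ H
    have : (p : ℕ) ∣ 2 := (CharP.cast_eq_zero_iff L p 2).1 (by exact_mod_cast H)
    exact hp ((Nat.prime_dvd_prime_iff_eq Fact.out Nat.prime_two).1 this)
  have eD : algebraMap K (RatFunc F) a ^ 2 - 4 * algebraMap K (RatFunc F) b =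
      algebraMap F[X] (RatFunc F) (A ^ 2 - 4 * B) := by
    simp only [hA, hB, map_sub, map_mul, map_pow, map_ofNat]
  refine ascent p rfl rfl rfl ?_ ?_ (h2' K) hodd ?_ ?_ hc' M hM
  · rintro (rfl : b = 0)
    exact hB0 (hi (by rw [← hB, map_zero, map_zero]))
  · intro H
    apply hD (hi _)
    have := congrArg (algebraMap K (RatFunc F)) H
    simp only [map_sub, map_mul, map_pow, map_ofNat, map_zero] at this
    rw [← eD, this, map_zero]
  · intro x hx
    change InSel (algebraMap K _ a) (algebraMap K _ b) x at hx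
    rw [hA, hB] at hx
    exact sel_of_redei p (h2' F) hD h1 x hx
  · intro x hx
    change InSel (-2 * algebraMap K _ a) (algebraMap K _ a ^ 2 - 4 * algebraMap K _ b) x at hx
    rw [eD, hA, show -2 * algebraMap F[X] (RatFunc F) A = algebraMap F[X] (RatFunc F) (-2 * A) by
      simp only [map_mul, map_neg, map_ofNat]] at hx
    refine sel_of_redei p (h2' F) ?_ h2 x hx
    rw [show (-2 * A) ^ 2 - 4 * (A ^ 2 - 4 * B) = C ((2 : F) ^ 4) * B by
      rw [map_pow, map_ofNat]; ring]
    exact mul_ne_zero (C_ne_zero.2 (pow_ne_zero 4 (h2' F))) hB0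

end Pool.Agent.ShaAsc
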